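import Mathlib
set_option autoImplicit false
namespace Pool.Agent.H822B
open Filter Topology Metric

/-- Smallness on one side of a square gives smallness at its centre. -/
theorem quad (g : ℂ → ℂ) (S : Set ℂ) (hg : DifferentiableOn ℂ g S) (hb : ∀ z ∈ S, ‖g z‖ ≤ 1) (c : ℂ) (ρ : ℝ)
    (hρ : 0 < ρ) (hQ : ∀ z : ℂ, |z.re| ≤ ρ → |z.im| ≤ ρ → c + z ∈ S) (ε : ℝ)
    (hε : ∀ z : ℂ, z.re = ρ → |z.im| ≤ ρ → ‖g (c + z)‖ ≤ ε) : ‖g c‖ ^ 4 ≤ ε := by
  set U : Set ℂ := {z | |z.re| < ρ ∧ |z.im| < ρ} with hU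
  have hUo : IsOpen U := by
    have h1 : IsOpen {z : ℂ | |z.re| < ρ} := isOpen_lt (by fun_prop) continuous_const
    have h2 : IsOpen {z : ℂ | |z.im| < ρ} := isOpen_lt (by fun_prop) continuous_const
    exact h1.inter h2
  have hcl : closure U ⊆ {z : ℂ | |z.re| ≤ ρ ∧ |z.im| ≤ ρ} := by
    apply closure_minimal
    · intro z hz; exact ⟨hz.1.le, hz.2.le⟩
    · have h1 : IsClosed {z : ℂ | |z.re| ≤ ρ} := isClosed_le (by fun_prop) continuous_const
      have h2 : IsClosed {z : ℂ | |z.im| ≤ ρ} := isClosed_le (by fun_prop) continuous_const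
      exact h1.inter h2
  have hbd : Bornology.IsBounded U := by
    apply (isBounded_ball (x := (0:ℂ)) (r := 2 * ρ + 1)).subset
    intro z hz
    rw [mem_ball_zero_iff]
    have h1 := Complex.norm_le_abs_re_add_abs_im z
    linarith [hz.1, hz.2]
  set h : ℂ → ℂ := fun z => (g (c + z) * g (c + -z)) * (g (c + Complex.I * z) * g (c + -(Complex.I * z))) with hh
  have hd1 : ∀ L : ℂ → ℂ, Differentiable ℂ L → (∀ z ∈ closure U, c + L z ∈ S) →
      DifferentiableOn ℂ (fun z => g (c + L z)) (closure U) := by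
    intro L hL hm
    exact DifferentiableOn.comp (g := g) hg ((hL.const_add c).differentiableOn) hm
  have m1 : ∀ z ∈ closure U, c + z ∈ S := fun z hz => hQ z (hcl hz).1 (hcl hz).2
  have m2 : ∀ z ∈ closure U, c + -z ∈ S := fun z hz => hQ _ (by simpa using (hcl hz).1) (by simpa using (hcl hz).2)
  have m3 : ∀ z ∈ closure U, c + Complex.I * z ∈ S := fun z hz =>
    hQ _ (by simpa using (hcl hz).2) (by simpa using (hcl hz).1)
  have m4 : ∀ z ∈ closure U, c + -(Complex.I * z) ∈ S := fun z hz =>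
    hQ _ (by simpa using (hcl hz).2) (by simpa using (hcl hz).1)
  have hdiff : DifferentiableOn ℂ h (closure U) := by
    apply DifferentiableOn.mul
    · exact (hd1 (fun z => z) differentiable_id m1).mul (hd1 (fun z => -z) (by fun_prop) m2)
    · exact (hd1 (fun z => Complex.I * z) (by fun_prop) m3).mul (hd1 (fun z => -(Complex.I * z)) (by fun_prop) m4)
  have hfr : ∀ z ∈ frontier U, ‖h z‖ ≤ ε := by
    intro z hz
    rw [hUo.frontier_eq] at hz
    obtain ⟨hz1, hz2⟩ := hz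
    obtain ⟨hr, hi⟩ := hcl hz1
    have b1 := hb _ (m1 z hz1)
    have b2 := hb _ (m2 z hz1)
    have b3 := hb _ (m3 z hz1)
    have b4 := hb _ (m4 z hz1)
    have hε0 : 0 ≤ ε := (norm_nonneg _).trans (hε (ρ:ℂ) (by simp) (by simp [hρ.le]))
    simp only [hh, norm_mul]
    set x1 := ‖g (c + z)‖
    set x2 := ‖g (c + -z)‖
    set x3 := ‖g (c + Complex.I * z)‖
    set x4 := ‖g (c + -(Complex.I * z))‖
    have n1 : 0 ≤ x1 := norm_nonneg _
    have n2 : 0 ≤ x2 := norm_nonneg _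
    have n3 : 0 ≤ x3 := norm_nonneg _
    have n4 : 0 ≤ x4 := norm_nonneg _
    have hcases : x1 ≤ ε ∨ x2 ≤ ε ∨ x3 ≤ ε ∨ x4 ≤ ε := by
      by_cases hre : |z.re| < ρ
      · have him : |z.im| = ρ := by
          by_contra hne
          exact hz2 ⟨hre, lt_of_le_of_ne hi hne⟩
        rcases (abs_eq hρ.le).mp him with h1 | h1
        · right; right; right
          exact hε _ (by simpa using h1) (by simpa using hr)
        · right; right; left
          exact hε _ (by simp [h1]) (by simpa using hr)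
      · have hre' : |z.re| = ρ := le_antisymm hr (not_lt.mp hre)
        rcases (abs_eq hρ.le).mp hre' with h1 | h1
        · left
          exact hε _ h1 hi
        · right; left
          exact hε _ (by simp [h1]) (by simpa using hi)
    have q12 : x1 * x2 ≤ 1 := mul_le_one₀ b1 n2 b2
    have q34 : x3 * x4 ≤ 1 := mul_le_one₀ b3 n4 b4
    have p12 : 0 ≤ x1 * x2 := mul_nonneg n1 n2
    have p34 : 0 ≤ x3 * x4 := mul_nonneg n3 n4
    rcases hcases with h1 | h1 | h1 | h1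
    · calc x1 * x2 * (x3 * x4) ≤ x1 * x2 * 1 := mul_le_mul_of_nonneg_left q34 p12
        _ = x1 * x2 := mul_one _
        _ ≤ x1 * 1 := mul_le_mul_of_nonneg_left b2 n1
        _ ≤ ε := by rw [mul_one]; exact h1
    · calc x1 * x2 * (x3 * x4) ≤ x1 * x2 * 1 := mul_le_mul_of_nonneg_left q34 p12
        _ = x1 * x2 := mul_one _
        _ ≤ 1 * x2 := mul_le_mul_of_nonneg_right b1 n2
        _ ≤ ε := by rw [one_mul]; exact h1
    · calc x1 * x2 * (x3 * x4) ≤ 1 * (x3 * x4) := mul_le_mul_of_nonneg_right q12 p34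
        _ = x3 * x4 := one_mul _
        _ ≤ x3 * 1 := mul_le_mul_of_nonneg_left b4 n3
        _ ≤ ε := by rw [mul_one]; exact h1
    · calc x1 * x2 * (x3 * x4) ≤ 1 * (x3 * x4) := mul_le_mul_of_nonneg_right q12 p34
        _ = x3 * x4 := one_mul _
        _ ≤ 1 * x4 := mul_le_mul_of_nonneg_right b3 n4
        _ ≤ ε := by rw [one_mul]; exact h1
  have h0U : (0:ℂ) ∈ U := by simp [hU, hρ]
  have hmax := Complex.norm_le_of_forall_mem_frontier_norm_le hbd hdiff.diffContOnCl hfr (subset_closure h0U)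
  have h0 : h 0 = g c ^ 4 := by simp only [hh]; simp; ring
  rw [h0, norm_pow] at hmax
  exact hmax

/-- A qualitative three circles theorem. -/
theorem threec (η : ℝ) (hη : 0 < η) : ∃ ε > 0, ε ≤ η ∧ ∀ (g : ℂ → ℂ) (c : ℂ) (r : ℝ), 0 < r →
    DifferentiableOn ℂ g (ball c (2 * r)) → (∀ z ∈ ball c (2 * r), ‖g z‖ ≤ 1) →
    (∀ z ∈ ball c r, ‖g z‖ ≤ ε) → ∀ z ∈ ball c (3 * r / 2), ‖g z‖ ≤ η := by
  obtain ⟨p, hp⟩ := exists_pow_lt_of_lt_one hη (show (6/7 : ℝ) < 1 by norm_num)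
  have h3 : (0:ℝ) < 3 ^ p := by positivity
  refine ⟨η / 3 ^ p, by positivity, div_le_self hη.le (one_le_pow₀ (by norm_num)), ?_⟩
  intro g c r hr hg hb hs z hz
  rw [mem_ball_iff_norm] at hz
  by_cases hzr : ‖z - c‖ ≤ r / 2
  · exact (hs z (by rw [mem_ball_iff_norm]; linarith)).trans (div_le_self hη.le (one_le_pow₀ (by norm_num)))
  push Not at hzr
  set U : Set ℂ := {z | r / 2 < ‖z - c‖ ∧ ‖z - c‖ < 7 * r / 4} with hU
  have hUo : IsOpen U := by
    have h1 : IsOpen {z : ℂ | r / 2 < ‖z - c‖} := isOpen_lt continuous_const (by fun_prop)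
    have h2 : IsOpen {z : ℂ | ‖z - c‖ < 7 * r / 4} := isOpen_lt (by fun_prop) continuous_const
    exact h1.inter h2
  have hcl : closure U ⊆ {z : ℂ | r / 2 ≤ ‖z - c‖ ∧ ‖z - c‖ ≤ 7 * r / 4} := by
    apply closure_minimal
    · intro z hz; exact ⟨hz.1.le, hz.2.le⟩
    · have h1 : IsClosed {z : ℂ | r / 2 ≤ ‖z - c‖} := isClosed_le continuous_const (by fun_prop)
      have h2 : IsClosed {z : ℂ | ‖z - c‖ ≤ 7 * r / 4} := isClosed_le (by fun_prop) continuous_const
      exact h1.inter h2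
  have hbd : Bornology.IsBounded U := by
    apply (isBounded_ball (x := c) (r := 2 * r)).subset
    intro z hz
    rw [mem_ball_iff_norm]
    linarith [hz.2]
  have hclb : closure U ⊆ ball c (2 * r) := by
    intro z hz
    rw [mem_ball_iff_norm]
    linarith [(hcl hz).2]
  set h : ℂ → ℂ := fun z => g z * (((r / 2 : ℝ) : ℂ) / (z - c)) ^ p with hh
  have hne : ∀ z ∈ closure U, z - c ≠ 0 := by
    intro z hz h0
    have := (hcl hz).1
    rw [h0, norm_zero] at this
    linarith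
  have hdiff : DifferentiableOn ℂ h (closure U) := by
    apply DifferentiableOn.mul (hg.mono hclb)
    apply DifferentiableOn.pow
    apply DifferentiableOn.div
    · exact differentiableOn_const _
    · exact (differentiable_id.sub_const c).differentiableOn
    · exact hne
  have hnorm : ∀ z, ‖h z‖ = ‖g z‖ * ((r / 2) / ‖z - c‖) ^ p := by
    intro z
    have h1 : ‖((r / 2 : ℝ) : ℂ)‖ = r / 2 := by
      rw [Complex.norm_real, Real.norm_eq_abs, abs_of_pos (by positivity : 0 < r / 2)]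
    simp only [hh]
    rw [norm_mul, norm_pow, norm_div, h1]
  have hfr : ∀ z ∈ frontier U, ‖h z‖ ≤ η / 3 ^ p := by
    intro z hz
    rw [hUo.frontier_eq] at hz
    obtain ⟨hz1, hz2⟩ := hz
    obtain ⟨hr1, hr2⟩ := hcl hz1
    rw [hnorm]
    by_cases hin : r / 2 < ‖z - c‖
    · have h1 : ‖z - c‖ = 7 * r / 4 := by
        by_contra hne'
        exact hz2 ⟨hin, lt_of_le_of_ne hr2 hne'⟩
      rw [h1]
      have h2 : (r / 2) / (7 * r / 4) = 2 / 7 := by field_simp; norm_num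
      rw [h2]
      calc ‖g z‖ * (2 / 7) ^ p ≤ 1 * (2 / 7) ^ p := mul_le_mul_of_nonneg_right (hb z (hclb hz1)) (by positivity)
        _ = (6 / 7) ^ p / 3 ^ p := by rw [one_mul, ← div_pow]; norm_num
        _ ≤ η / 3 ^ p := div_le_div_of_nonneg_right hp.le h3.le
    · have h1 : ‖z - c‖ = r / 2 := le_antisymm (not_lt.mp hin) hr1
      rw [h1, div_self (by positivity), one_pow, mul_one]
      exact hs z (by rw [mem_ball_iff_norm]; linarith)
  have hzU : z ∈ U := ⟨hzr, by linarith⟩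
  have hmax := Complex.norm_le_of_forall_mem_frontier_norm_le hbd hdiff.diffContOnCl hfr (subset_closure hzU)
  rw [hnorm] at hmax
  have hzpos : 0 < ‖z - c‖ := by linarith
  have h1 : 1 / 3 ≤ (r / 2) / ‖z - c‖ := by
    rw [div_le_div_iff₀ (by norm_num) hzpos]
    linarith
  have h2 : (1 / 3) ^ p ≤ ((r / 2) / ‖z - c‖) ^ p := pow_le_pow_left₀ (by norm_num) h1 p
  have h4 : ‖g z‖ * (1 / 3) ^ p ≤ η / 3 ^ p := (mul_le_mul_of_nonneg_left h2 (norm_nonneg _)).trans hmax
  rw [one_div, inv_pow, ← div_eq_mul_inv] at h4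
  exact (div_le_div_iff_of_pos_right h3).mp h4

/-- Chains of discs. -/
theorem chain (N : ℕ) : ∀ η : ℝ, 0 < η → ∃ ε > 0, ∀ (g : ℂ → ℂ) (S T : Set ℂ) (r : ℝ), 0 < r → Convex ℝ T →
    (∀ z ∈ T, ball z (2 * r) ⊆ S) → DifferentiableOn ℂ g S → (∀ z ∈ S, ‖g z‖ ≤ 1) →
    ∀ a ∈ T, ∀ b ∈ T, ‖b - a‖ ≤ N * (r / 2) → (∀ z ∈ ball a r, ‖g z‖ ≤ ε) → ‖g b‖ ≤ η := by
  induction N with
  | zero =>
    intro η hη
    refine ⟨η, hη, ?_⟩
    intro g S T r hr _ _ _ _ a _ b _ hab hs
    have h1 : ‖b - a‖ ≤ 0 := by simpa using hab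
    have h2 : b = a := sub_eq_zero.mp (norm_le_zero_iff.mp h1)
    rw [h2]
    exact hs a (mem_ball_self hr)
  | succ N ih =>
    intro η hη
    obtain ⟨ε', hε', hI⟩ := ih η hη
    obtain ⟨ε, hε, _, hT⟩ := threec ε' hε'
    refine ⟨ε, hε, ?_⟩
    intro g S T r hr hTc hTS hg hb a ha b hbT hab hs
    have hN : (0:ℝ) < (N:ℝ) + 1 := by positivity
    set κ : ℝ := 1 / (N + 1) with hκ
    have hκ0 : 0 < κ := by positivity
    have hκ1 : κ ≤ 1 := by
      rw [hκ, div_le_one hN]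
      have : (0:ℝ) ≤ N := Nat.cast_nonneg N
      linarith
    set a' : ℂ := (1 - κ) • a + κ • b with ha'
    have ha'T : a' ∈ T := hTc ha hbT (by linarith) hκ0.le (by ring)
    have e1 : a' - a = κ • (b - a) := by rw [ha']; simp only [sub_smul, one_smul, smul_sub]; ring
    have e2 : b - a' = (1 - κ) • (b - a) := by rw [ha']; simp only [sub_smul, one_smul, smul_sub]; ring
    push_cast at hab
    have d1 : ‖a' - a‖ ≤ r / 2 := by
      rw [e1, norm_smul, Real.norm_eq_abs, abs_of_pos hκ0]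
      calc κ * ‖b - a‖ ≤ κ * ((N + 1) * (r / 2)) := mul_le_mul_of_nonneg_left hab hκ0.le
        _ = r / 2 := by rw [hκ]; field_simp
    have d2 : ‖b - a'‖ ≤ N * (r / 2) := by
      rw [e2, norm_smul, Real.norm_eq_abs, abs_of_nonneg (by linarith)]
      calc (1 - κ) * ‖b - a‖ ≤ (1 - κ) * ((N + 1) * (r / 2)) := mul_le_mul_of_nonneg_left hab (by linarith)
        _ = N * (r / 2) := by rw [hκ]; field_simp; ring
    apply hI g S T r hr hTc hTS hg hb a' ha'T b hbT d2
    intro z hz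
    apply hT g a r hr (hg.mono (hTS a ha)) (fun z hz => hb z (hTS a ha hz)) hs z
    rw [mem_ball_iff_norm] at hz ⊢
    calc ‖z - a‖ = ‖(z - a') + (a' - a)‖ := by congr 1; ring
      _ ≤ ‖z - a'‖ + ‖a' - a‖ := norm_add_le _ _
      _ < 3 * r / 2 := by linarith

/-- Propagation of smallness from an arc to the opposite point of an annulus. -/
theorem prop_small (w δ η : ℝ) (hw : 0 < w) (hδ : 0 < δ) (hη : 0 < η) : ∃ ε > 0, ∀ (x₁ : ℝ), w / 2 ≤ x₁ → x₁ < w →
    ∀ g : ℂ → ℂ, DifferentiableOn ℂ g {τ | |τ.re| < w} → (∀ τ : ℂ, |τ.re| < w → ‖g τ‖ ≤ 1) →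
    (∀ θ : ℝ, |θ| ≤ δ → ‖g (x₁ + θ * Complex.I)‖ ≤ ε) → ‖g (Real.pi * Complex.I)‖ ≤ η := by
  set ρ := min w δ / 8 with hρ
  have hm0 : 0 < min w δ := lt_min hw hδ
  have hρ0 : 0 < ρ := by positivity
  have hρw : 8 * ρ ≤ w := by rw [hρ]; linarith [min_le_left w δ]
  have hρδ : 8 * ρ ≤ δ := by rw [hρ]; linarith [min_le_right w δ]
  obtain ⟨N, hN⟩ := exists_nat_ge ((Real.pi + w) / (ρ / 2))
  obtain ⟨ε, hε, hC⟩ := chain N η hη
  refine ⟨ε ^ 4, by positivity, ?_⟩
  intro x₁ hx1 hx2 g hg hb hs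
  set T : Set ℂ := {τ | 0 ≤ τ.re ∧ τ.re ≤ w - 2 * ρ} with hT
  have hTc : Convex ℝ T := by
    have h1 : Convex ℝ {τ : ℂ | 0 ≤ τ.re} := convex_halfSpace_re_ge 0
    have h2 : Convex ℝ {τ : ℂ | τ.re ≤ w - 2 * ρ} := convex_halfSpace_re_le _
    exact h1.inter h2
  have hTS : ∀ z ∈ T, ball z (2 * ρ) ⊆ {τ : ℂ | |τ.re| < w} := by
    intro z hz y hy
    rw [mem_ball_iff_norm] at hy
    have h1 := (Complex.abs_re_le_norm (y - z)).trans_lt hy
    rw [Complex.sub_re, abs_lt] at h1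
    simp only [Set.mem_ofPred_eq]
    rw [abs_lt]
    obtain ⟨h2, h3⟩ := hz
    constructor <;> linarith [h1.1, h1.2]
  have ha : ((x₁ - 2 * ρ : ℝ) : ℂ) ∈ T := by
    simp only [hT, Set.mem_ofPred_eq, Complex.ofReal_re]
    constructor <;> linarith
  have hbT : (Real.pi * Complex.I : ℂ) ∈ T := by
    simp only [hT, Set.mem_ofPred_eq, Complex.mul_re, Complex.ofReal_re, Complex.I_re, Complex.ofReal_im, Complex.I_im]
    constructor <;> linarith
  have hd : ‖(Real.pi * Complex.I : ℂ) - ((x₁ - 2 * ρ : ℝ) : ℂ)‖ ≤ N * (ρ / 2) := by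
    have h1 : ‖(Real.pi * Complex.I : ℂ) - ((x₁ - 2 * ρ : ℝ) : ℂ)‖ ≤ Real.pi + w := by
      refine (norm_sub_le _ _).trans ?_
      rw [norm_mul, Complex.norm_I, mul_one, Complex.norm_real, Complex.norm_real, Real.norm_eq_abs, Real.norm_eq_abs,
        abs_of_pos Real.pi_pos, abs_of_nonneg (by linarith)]
      linarith
    refine h1.trans ?_
    rw [div_le_iff₀ (by positivity)] at hN
    exact hN
  apply hC g _ T ρ hρ0 hTc hTS hg (fun z hz => hb z hz) _ ha _ hbT hd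
  intro z hz
  rw [mem_ball_iff_norm] at hz
  have h1 := (Complex.abs_re_le_norm _).trans_lt hz
  have h2 := (Complex.abs_im_le_norm _).trans_lt hz
  simp only [Complex.sub_re, Complex.sub_im, Complex.ofReal_re, Complex.ofReal_im, sub_zero] at h1 h2
  rw [abs_lt] at h1 h2
  set κ := x₁ - z.re with hκ
  have hκ1 : ρ < κ := by linarith [h1.2]
  have hκ2 : κ < 3 * ρ := by linarith [h1.1]
  have h4 : ‖g z‖ ^ 4 ≤ ε ^ 4 := by
    apply quad g _ hg (fun z hz => hb z hz) z κ (by linarith)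
    · intro u hu1 hu2
      rw [abs_le] at hu1
      simp only [Set.mem_ofPred_eq, Complex.add_re]
      rw [abs_lt]
      constructor <;> linarith [hu1.1, hu1.2]
    · intro u hu1 hu2
      rw [abs_le] at hu2
      have h5 : z + u = (x₁ : ℂ) + ((z.im + u.im : ℝ) : ℂ) * Complex.I := by
        apply Complex.ext
        · simp [hu1, hκ]
        · simp
      rw [h5]
      apply hs
      rw [abs_le]
      constructor <;> linarith [h2.1, h2.2, hu2.1, hu2.2]
  exact le_of_pow_le_pow_left₀ (by norm_num) hε.le h4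

end Pool.Agent.H822B
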