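import Pool.Agent.H822B.Small
import Pool.Agent.H822B.Prop
set_option autoImplicit false
namespace Pool.Agent.H822B
open Finset Filter Topology Metric
open Pool.Agent.Helper233.BA hiding nn good_nn s_pos s_succ s_le s_tendsto ancestor KK KK_closed_level
  KK_closed norm_node_bounds KK_sphere KK_compact branch not_Z PP AA AA_succ AA_le AA_diff PP_contOn PP_diffOn
  AA_contOn AA_diffOn GG GG_contOn GG_tendsto GG_diffOn GG_zero GG_ne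

noncomputable def zt (ρ : ℝ) : ℝ := 2 / (ρ ^ 2 + (ρ⁻¹) ^ 2)

theorem zt_mul (ρ : ℝ) (hρ : 1 < ρ) : zt ρ * (ρ ^ 2 + (ρ⁻¹) ^ 2) = 2 := by
  have : 0 < ρ ^ 2 + (ρ⁻¹) ^ 2 := by positivity
  rw [zt]; field_simp

theorem zt_pos (ρ : ℝ) (hρ : 1 < ρ) : 0 < zt ρ := by
  have : 0 < ρ ^ 2 + (ρ⁻¹) ^ 2 := by positivity
  rw [zt]; positivity

theorem inv_facts (ρ : ℝ) (hρ : 1 < ρ) : 0 < ρ⁻¹ ∧ ρ⁻¹ < 1 ∧ ρ * ρ⁻¹ = 1 :=
  ⟨by positivity, inv_lt_one_of_one_lt₀ hρ, mul_inv_cancel₀ (by positivity)⟩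

theorem zt_lt (ρ : ℝ) (hρ : 1 < ρ) : zt ρ < 1 := by
  have h0 : 0 < ρ ^ 2 + (ρ⁻¹) ^ 2 := by positivity
  obtain ⟨h1, h2, h3⟩ := inv_facts ρ hρ
  rw [zt, div_lt_one h0]
  nlinarith [sq_nonneg (ρ - ρ⁻¹), mul_pos (sub_pos.mpr hρ) (sub_pos.mpr h2)]

/-- The annulus in the ball. -/
noncomputable def zc (ρ : ℝ) (l : ℂ) : E := !₂[((√(zt ρ / 2) : ℝ) : ℂ) * l, ((√(zt ρ / 2) : ℝ) : ℂ) * l⁻¹]

theorem norm_zc_sq (ρ : ℝ) (hρ : 1 < ρ) (l : ℂ) : ‖zc ρ l‖ ^ 2 = zt ρ / 2 * (‖l‖ ^ 2 + (‖l‖⁻¹) ^ 2) := by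
  have h := zt_pos ρ hρ
  rw [EuclideanSpace.norm_sq_eq]
  simp only [zc, Fin.sum_univ_two]
  simp only [PiLp.toLp_apply, Matrix.cons_val_zero, Matrix.cons_val_one, norm_mul, norm_inv,
    Complex.norm_real, Real.norm_eq_abs, abs_of_nonneg (Real.sqrt_nonneg _)]
  rw [mul_pow, mul_pow, Real.sq_sqrt (by positivity)]
  ring

theorem inner_zc (ρ : ℝ) (m : ℂ) (z : E) : inner ℂ (zc ρ m) z =
    ((√(zt ρ / 2) : ℝ) : ℂ) * ((starRingEnd ℂ) m * z 0 + ((starRingEnd ℂ) m)⁻¹ * z 1) := by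
  rw [inner_two]
  simp only [zc, PiLp.toLp_apply, Matrix.cons_val_zero, Matrix.cons_val_one, map_mul, map_inv₀, Complex.conj_ofReal]
  ring

theorem inner_zc_zc (ρ : ℝ) (hρ : 1 < ρ) (m l : ℂ) : inner ℂ (zc ρ m) (zc ρ l) =
    ((zt ρ / 2 : ℝ) : ℂ) * ((starRingEnd ℂ) m * l + ((starRingEnd ℂ) m)⁻¹ * l⁻¹) := by
  have h := zt_pos ρ hρ
  have h2 : ((√(zt ρ / 2) : ℝ) : ℂ) * ((√(zt ρ / 2) : ℝ) : ℂ) = ((zt ρ / 2 : ℝ) : ℂ) := by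
    rw [← Complex.ofReal_mul, Real.mul_self_sqrt (by positivity)]
  rw [inner_zc, ← h2]
  simp only [zc, PiLp.toLp_apply, Matrix.cons_val_zero, Matrix.cons_val_one]
  ring

/-- The quadric coordinate. -/
noncomputable def xx (z : E) : ℂ := 2 * z 0 * z 1

theorem norm_sq_two (z : E) : ‖z‖ ^ 2 = ‖z 0‖ ^ 2 + ‖z 1‖ ^ 2 := by
  rw [EuclideanSpace.norm_sq_eq, Fin.sum_univ_two]

theorem xx_le (z : E) (hz : ‖z‖ ≤ 1) : ‖xx z‖ ≤ 1 := by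
  have h1 := norm_sq_two z
  have h2 : ‖xx z‖ = 2 * ‖z 0‖ * ‖z 1‖ := by simp [xx]
  rw [h2]
  nlinarith [sq_nonneg (‖z 0‖ - ‖z 1‖), norm_nonneg z]

theorem base_re (ρ : ℝ) (hρ : 1 < ρ) (z : E) (hz : ‖z‖ ≤ 1) : 0 < (1 - (zt ρ : ℂ) * xx z).re := by
  have h1 := xx_le z hz
  have h2 := zt_pos ρ hρ
  have h3 := zt_lt ρ hρ
  have h4 := Complex.re_le_norm ((zt ρ : ℂ) * xx z)
  rw [norm_mul, Complex.norm_real, Real.norm_eq_abs, abs_of_pos h2] at h4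
  rw [Complex.sub_re, Complex.one_re]
  nlinarith [norm_nonneg (xx z)]

noncomputable def Nn (ρ : ℝ) (z : E) : ℂ := 1 + Complex.exp (Complex.log (1 - (zt ρ : ℂ) * xx z) / 2)

theorem half_sq (y : ℂ) (hy : y ≠ 0) : Complex.exp (Complex.log y / 2) ^ 2 = y := by
  rw [← Complex.exp_nat_mul]
  push_cast
  rw [mul_div_cancel₀ _ (two_ne_zero), Complex.exp_log hy]

theorem half_re (y : ℂ) : 0 ≤ (Complex.exp (Complex.log y / 2)).re := by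
  rw [Complex.exp_re]
  apply mul_nonneg (Real.exp_pos _).le
  have h : (Complex.log y / 2).im = y.arg / 2 := by
    have : Complex.log y / 2 = ((1/2 : ℝ) : ℂ) * Complex.log y := by push_cast; ring
    rw [this, Complex.im_ofReal_mul, Complex.log_im]; ring
  rw [h]
  apply Real.cos_nonneg_of_mem_Icc
  constructor <;> linarith [Complex.neg_pi_lt_arg y, Complex.arg_le_pi y]

theorem base_ne (ρ : ℝ) (hρ : 1 < ρ) (z : E) (hz : ‖z‖ ≤ 1) : (1 - (zt ρ : ℂ) * xx z) ≠ 0 := by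
  intro h
  have := base_re ρ hρ z hz
  rw [h] at this
  simp at this

/-- `N² - 2N + ζ ab = 0`. -/
theorem Nn_eq (ρ : ℝ) (hρ : 1 < ρ) (z : E) (hz : ‖z‖ ≤ 1) : Nn ρ z * (2 - Nn ρ z) = (zt ρ : ℂ) * xx z := by
  have h := half_sq _ (base_ne ρ hρ z hz)
  rw [Nn]
  linear_combination -h

theorem Nn_re (ρ : ℝ) (z : E) : 1 ≤ (Nn ρ z).re := by
  rw [Nn, Complex.add_re, Complex.one_re]
  linarith [half_re (1 - (zt ρ : ℂ) * xx z)]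

theorem Nn_norm (ρ : ℝ) (z : E) : 1 ≤ ‖Nn ρ z‖ := (Nn_re ρ z).trans (Complex.re_le_norm _)

theorem Nn_ne (ρ : ℝ) (z : E) : Nn ρ z ≠ 0 := by
  intro h
  have := Nn_norm ρ z
  rw [h, norm_zero] at this
  linarith

theorem Nn_ge (ρ : ℝ) (z : E) : ‖2 - Nn ρ z‖ ≤ ‖Nn ρ z‖ := by
  have h := Nn_re ρ z
  apply le_of_sq_le_sq _ (norm_nonneg _)
  rw [← Complex.normSq_eq_norm_sq, ← Complex.normSq_eq_norm_sq, Complex.normSq_apply, Complex.normSq_apply]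
  simp only [Complex.sub_re, Complex.sub_im, Complex.re_ofNat, Complex.im_ofNat]
  nlinarith

/-- The two coordinates. -/
noncomputable def Ap (ρ : ℝ) (z : E) : ℂ := ((√(2 * zt ρ) * ρ : ℝ) : ℂ) * z 0
noncomputable def Bp (ρ : ℝ) (z : E) : ℂ := ((√(2 * zt ρ) * ρ⁻¹ : ℝ) : ℂ) * z 1

theorem Ap_Bp (ρ : ℝ) (hρ : 1 < ρ) (z : E) : Ap ρ z * Bp ρ z = (zt ρ : ℂ) * xx z := by
  have h := zt_pos ρ hρ
  obtain ⟨h1, h2, h3⟩ := inv_facts ρ hρ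
  have h4 : (√(2 * zt ρ) * ρ) * (√(2 * zt ρ) * ρ⁻¹) = 2 * zt ρ := by
    have h5 : √(2 * zt ρ) * √(2 * zt ρ) = 2 * zt ρ := Real.mul_self_sqrt (by positivity)
    calc (√(2 * zt ρ) * ρ) * (√(2 * zt ρ) * ρ⁻¹) = (√(2 * zt ρ) * √(2 * zt ρ)) * (ρ * ρ⁻¹) := by ring
      _ = 2 * zt ρ := by rw [h5, h3, mul_one]
  have h5 : ((√(2 * zt ρ) * ρ : ℝ) : ℂ) * ((√(2 * zt ρ) * ρ⁻¹ : ℝ) : ℂ) = ((2 * zt ρ : ℝ) : ℂ) := by
    rw [← Complex.ofReal_mul, h4]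
  rw [Ap, Bp, xx]
  push_cast at h5 ⊢
  linear_combination (z 0 * z 1) * h5

theorem norm_Ap (ρ : ℝ) (hρ : 1 < ρ) (z : E) : ‖Ap ρ z‖ = √(2 * zt ρ) * ρ * ‖z 0‖ := by
  rw [Ap, norm_mul, Complex.norm_real, Real.norm_eq_abs, abs_of_nonneg (by positivity)]

theorem norm_Bp (ρ : ℝ) (hρ : 1 < ρ) (z : E) : ‖Bp ρ z‖ = √(2 * zt ρ) * ρ⁻¹ * ‖z 1‖ := by
  rw [Bp, norm_mul, Complex.norm_real, Real.norm_eq_abs, abs_of_nonneg (by positivity)]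

/-- Cauchy-Schwarz with deficit. -/
theorem cs_deficit (ρ : ℝ) (hρ : 1 < ρ) (z : E) (hz : ‖z‖ ≤ 1) :
    (‖Ap ρ z‖ + ‖Bp ρ z‖) ^ 2 + 2 * zt ρ * (ρ * ‖z 1‖ - ρ⁻¹ * ‖z 0‖) ^ 2 + 4 * (1 - ‖z‖ ^ 2) = 4 := by
  have h := zt_pos ρ hρ
  have h1 := zt_mul ρ hρ
  rw [norm_Ap ρ hρ, norm_Bp ρ hρ, norm_sq_two z]
  have h5 : √(2 * zt ρ) ^ 2 = 2 * zt ρ := Real.sq_sqrt (by positivity)
  have e : (√(2 * zt ρ) * ρ * ‖z 0‖ + √(2 * zt ρ) * ρ⁻¹ * ‖z 1‖) ^ 2 = √(2 * zt ρ) ^ 2 * (ρ * ‖z 0‖ + ρ⁻¹ * ‖z 1‖) ^ 2 := by ring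
  rw [e, h5]
  linear_combination (2 * (‖z 0‖ ^ 2 + ‖z 1‖ ^ 2)) * h1

theorem sum_le_two (ρ : ℝ) (hρ : 1 < ρ) (z : E) (hz : ‖z‖ ≤ 1) : ‖Ap ρ z‖ + ‖Bp ρ z‖ ≤ 2 := by
  have h := zt_pos ρ hρ
  have h1 := cs_deficit ρ hρ z hz
  have h2 : ‖z‖ ^ 2 ≤ 1 := pow_le_one₀ (norm_nonneg _) hz
  have h3 : 0 ≤ 2 * zt ρ * (ρ * ‖z 1‖ - ρ⁻¹ * ‖z 0‖) ^ 2 := by positivity
  apply le_of_sq_le_sq _ (by norm_num)
  linarith

theorem two_le (N : ℂ) : 2 ≤ ‖N‖ + ‖2 - N‖ := by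
  have h1 := Complex.re_le_norm N
  have h2 := Complex.re_le_norm (2 - N)
  simp only [Complex.sub_re, Complex.re_ofNat] at h2
  linarith

theorem joukowski (N : ℂ) (a b : ℝ) (ha : 0 ≤ a) (hN : ‖2 - N‖ ≤ ‖N‖) (hab : a * b = ‖N‖ * ‖2 - N‖)
    (h2 : a + b ≤ 2) : a ≤ ‖N‖ := by
  by_contra hcon
  push Not at hcon
  have h3 := two_le N
  have h4 : 0 < (a - ‖N‖) * (a - ‖2 - N‖) := mul_pos (by linarith) (by linarith)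
  nlinarith

theorem Ap_le (ρ : ℝ) (hρ : 1 < ρ) (z : E) (hz : ‖z‖ ≤ 1) : ‖Ap ρ z‖ ≤ ‖Nn ρ z‖ := by
  apply joukowski _ _ _ (norm_nonneg _) (Nn_ge ρ z) _ (sum_le_two ρ hρ z hz)
  rw [← norm_mul, ← norm_mul, Ap_Bp ρ hρ, Nn_eq ρ hρ z hz]

theorem Bp_le (ρ : ℝ) (hρ : 1 < ρ) (z : E) (hz : ‖z‖ ≤ 1) : ‖Bp ρ z‖ ≤ ‖Nn ρ z‖ := by
  apply joukowski _ _ (‖Ap ρ z‖) (norm_nonneg _) (Nn_ge ρ z) _ (by rw [add_comm]; exact sum_le_two ρ hρ z hz)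
  rw [mul_comm, ← norm_mul, ← norm_mul, Ap_Bp ρ hρ, Nn_eq ρ hρ z hz]

/-- In the equality case the point lies on the quadric. -/
theorem Ap_eq (ρ : ℝ) (hρ : 1 < ρ) (z : E) (hz : ‖z‖ ≤ 1) (h : ‖Ap ρ z‖ = ‖Nn ρ z‖) : xx z = (zt ρ : ℂ) := by
  have hz0 := zt_pos ρ hρ
  have hprod : ‖Ap ρ z‖ * ‖Bp ρ z‖ = ‖Nn ρ z‖ * ‖2 - Nn ρ z‖ := by
    rw [← norm_mul, ← norm_mul, Ap_Bp ρ hρ, Nn_eq ρ hρ z hz]
  have hN1 := Nn_norm ρ z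
  have hB : ‖Bp ρ z‖ = ‖2 - Nn ρ z‖ := by
    rw [h] at hprod
    exact mul_left_cancel₀ (by linarith : ‖Nn ρ z‖ ≠ 0) hprod
  have hsum := sum_le_two ρ hρ z hz
  rw [h, hB] at hsum
  have h1 := Complex.re_le_norm (Nn ρ z)
  have h2 := Complex.re_le_norm (2 - Nn ρ z)
  simp only [Complex.sub_re, Complex.re_ofNat] at h2
  have h3 : ‖Nn ρ z‖ = (Nn ρ z).re := by linarith
  have h4 : ‖2 - Nn ρ z‖ = 2 - (Nn ρ z).re := by linarith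
  have him : (Nn ρ z).im = 0 := by
    have h5 : ‖Nn ρ z‖ ^ 2 = (Nn ρ z).re * (Nn ρ z).re + (Nn ρ z).im * (Nn ρ z).im := by
      rw [← Complex.normSq_eq_norm_sq, Complex.normSq_apply]
    rw [h3] at h5
    have h6 : (Nn ρ z).im * (Nn ρ z).im = 0 := by nlinarith
    exact mul_self_eq_zero.mp h6
  set u := (Nn ρ z).re with hu
  have hNr : Nn ρ z = (u : ℂ) := by
    apply Complex.ext
    · simp [hu]
    · simp [him]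
  have hx : (zt ρ : ℂ) * xx z = ((u * (2 - u) : ℝ) : ℂ) := by
    rw [← Nn_eq ρ hρ z hz, hNr]; push_cast; ring
  have hu2 : 0 ≤ u * (2 - u) := by
    rw [← h4, ← h3]; positivity
  -- norms
  have hdef := cs_deficit ρ hρ z hz
  have hs2 : ‖Ap ρ z‖ + ‖Bp ρ z‖ = 2 := by rw [h, hB, h3, h4]; ring
  rw [hs2] at hdef
  have hz2 : ‖z‖ ^ 2 ≤ 1 := pow_le_one₀ (norm_nonneg _) hz
  have h7 : 0 ≤ 2 * zt ρ * (ρ * ‖z 1‖ - ρ⁻¹ * ‖z 0‖) ^ 2 := by positivity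
  have h8 : 2 * zt ρ * (ρ * ‖z 1‖ - ρ⁻¹ * ‖z 0‖) ^ 2 = 0 := by linarith
  have h9 : ‖z‖ ^ 2 = 1 := by linarith
  have h10 : ρ * ‖z 1‖ - ρ⁻¹ * ‖z 0‖ = 0 := by
    have : (ρ * ‖z 1‖ - ρ⁻¹ * ‖z 0‖) ^ 2 = 0 := by
      rcases mul_eq_zero.mp h8 with h | h
      · linarith
      · exact h
    exact pow_eq_zero_iff (two_ne_zero) |>.mp this
  obtain ⟨i1, i2, i3⟩ := inv_facts ρ hρ
  have h11 : 2 * ‖z 0‖ * ‖z 1‖ = zt ρ := by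
    rw [norm_sq_two] at h9
    have e1 : ‖z 0‖ = ρ ^ 2 * ‖z 1‖ := by
      have : ρ * (ρ * ‖z 1‖ - ρ⁻¹ * ‖z 0‖) = ρ ^ 2 * ‖z 1‖ - (ρ * ρ⁻¹) * ‖z 0‖ := by ring
      rw [h10, i3] at this
      linarith
    rw [e1] at h9 ⊢
    have h12 := zt_mul ρ hρ
    have h13 : (ρ ^ 2 + (ρ⁻¹) ^ 2) * (2 * (ρ ^ 2 * ‖z 1‖) * ‖z 1‖) = 2 := by
      have : (ρ ^ 2 + (ρ⁻¹) ^ 2) * (2 * (ρ ^ 2 * ‖z 1‖) * ‖z 1‖) =
          2 * ((ρ ^ 2 * ‖z 1‖) ^ 2 + (ρ * ρ⁻¹) ^ 2 * ‖z 1‖ ^ 2) := by ring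
      rw [this, i3, one_pow, one_mul, h9]; norm_num
    have h14 : (ρ ^ 2 + (ρ⁻¹) ^ 2) ≠ 0 := by positivity
    apply mul_left_cancel₀ h14
    rw [h13]; linarith
  have h15 : ‖xx z‖ = zt ρ := by
    rw [← h11]; simp [xx]
  have h16 : u * (2 - u) = zt ρ * zt ρ := by
    have := congrArg (fun t : ℂ => ‖t‖) hx
    simp only [norm_mul] at this
    rw [h15, Complex.norm_real, Complex.norm_real, Real.norm_eq_abs, Real.norm_eq_abs, abs_of_pos hz0, abs_of_nonneg hu2] at this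
    exact this.symm
  rw [h16] at hx
  have h17 : (zt ρ : ℂ) ≠ 0 := by exact_mod_cast hz0.ne'
  apply mul_left_cancel₀ h17
  rw [hx]; push_cast; ring

/-- The Blaschke type factor. -/
noncomputable def bb (ρ : ℝ) (z : E) : ℂ := ((zt ρ : ℂ) - xx z) / (1 - (zt ρ : ℂ) * xx z)

theorem bb_le (ρ : ℝ) (hρ : 1 < ρ) (z : E) (hz : ‖z‖ ≤ 1) : ‖bb ρ z‖ ≤ 1 := by
  have h0 := base_ne ρ hρ z hz
  have h1 := xx_le z hz
  have h2 := zt_pos ρ hρ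
  have h3 := zt_lt ρ hρ
  rw [bb, norm_div, div_le_one (norm_pos_iff.mpr h0)]
  apply le_of_sq_le_sq _ (norm_nonneg _)
  rw [← Complex.normSq_eq_norm_sq, ← Complex.normSq_eq_norm_sq, Complex.normSq_apply, Complex.normSq_apply]
  have h4 : (xx z).re * (xx z).re + (xx z).im * (xx z).im ≤ 1 := by
    rw [← Complex.normSq_apply, Complex.normSq_eq_norm_sq]
    exact pow_le_one₀ (norm_nonneg _) h1
  simp only [Complex.sub_re, Complex.sub_im, Complex.ofReal_re, Complex.ofReal_im, Complex.one_re, Complex.one_im,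
    Complex.re_ofReal_mul, Complex.im_ofReal_mul]
  have h5 : 0 ≤ (1 - zt ρ ^ 2) * (1 - ((xx z).re * (xx z).re + (xx z).im * (xx z).im)) :=
    mul_nonneg (by nlinarith) (by linarith)
  nlinarith

theorem bb_sub (ρ : ℝ) (hρ : 1 < ρ) (z : E) (hz : ‖z‖ ≤ 1) : ‖1 - xx z‖ * ‖bb ρ z - 1‖ ≤ 4 * (1 - zt ρ) := by
  have h0 := base_ne ρ hρ z hz
  have h1 := xx_le z hz
  have h2 := zt_pos ρ hρ
  have h3 := zt_lt ρ hρ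
  have e1 : bb ρ z - 1 = -((1 - zt ρ : ℝ) : ℂ) * (1 + xx z) / (1 - (zt ρ : ℂ) * xx z) := by
    rw [bb, eq_div_iff h0, sub_mul, div_mul_cancel₀ _ h0]; push_cast; ring
  have hpos : 0 < ‖1 - (zt ρ : ℂ) * xx z‖ := norm_pos_iff.mpr h0
  have h4 : ‖1 + xx z‖ ≤ 2 := by
    refine (norm_add_le _ _).trans ?_
    rw [norm_one]; linarith
  have h5 : 1 - zt ρ ≤ ‖1 - (zt ρ : ℂ) * xx z‖ := by
    have h6 := norm_sub_norm_le (1:ℂ) ((zt ρ : ℂ) * xx z)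
    rw [norm_one, norm_mul, Complex.norm_real, Real.norm_eq_abs, abs_of_pos h2] at h6
    nlinarith
  have h6 : ‖1 - xx z‖ ≤ 2 * ‖1 - (zt ρ : ℂ) * xx z‖ := by
    have e2 : 1 - xx z = (1 - (zt ρ : ℂ) * xx z) - ((1 - zt ρ : ℝ) : ℂ) * xx z := by push_cast; ring
    rw [e2]
    refine (norm_sub_le _ _).trans ?_
    rw [norm_mul, Complex.norm_real, Real.norm_eq_abs, abs_of_pos (by linarith : 0 < 1 - zt ρ)]
    have : (1 - zt ρ) * ‖xx z‖ ≤ (1 - zt ρ) * 1 := mul_le_mul_of_nonneg_left h1 (by linarith)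
    linarith
  rw [e1, norm_div, norm_mul, norm_neg, Complex.norm_real, Real.norm_eq_abs, abs_of_pos (by linarith : 0 < 1 - zt ρ),
    ← mul_div_assoc, div_le_iff₀ hpos]
  calc ‖1 - xx z‖ * ((1 - zt ρ) * ‖1 + xx z‖) ≤ (2 * ‖1 - (zt ρ : ℂ) * xx z‖) * ((1 - zt ρ) * 2) := by
        apply mul_le_mul h6 _ (by positivity) (by positivity)
        exact mul_le_mul_of_nonneg_left h4 (by linarith)
    _ = _ := by ring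

end Pool.Agent.H822B
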