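import Pool.Agent.H822B.Arc
set_option autoImplicit false
namespace Pool.Agent.H822B
open Finset Filter Topology Metric
open Pool.Agent.Helper233.BA hiding nn good_nn s_pos s_succ s_le s_tendsto ancestor KK KK_closed_level
  KK_closed norm_node_bounds KK_sphere KK_compact branch not_Z PP AA AA_succ AA_le AA_diff PP_contOn PP_diffOn
  AA_contOn AA_diffOn GG GG_contOn GG_tendsto GG_diffOn GG_zero GG_ne

theorem coord_diff (i : Fin 2) : Differentiable ℂ (fun z : E => z i) := by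
  fun_prop

theorem xx_diff : Differentiable ℂ xx := by
  unfold xx
  exact ((coord_diff 0).const_mul 2).mul (coord_diff 1)

theorem Nn_diffOn (ρ : ℝ) (hρ : 1 < ρ) : DifferentiableOn ℂ (Nn ρ) (closedBall 0 1) := by
  intro z hz
  have hz' : ‖z‖ ≤ 1 := by simpa using hz
  have h1 : DifferentiableAt ℂ (fun z : E => 1 - (zt ρ : ℂ) * xx z) z := ((xx_diff z).const_mul _).const_sub 1
  have h2 : (1 - (zt ρ : ℂ) * xx z) ∈ Complex.slitPlane := Or.inl (base_re ρ hρ z hz')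
  have h3 : DifferentiableAt ℂ (fun z : E => Complex.log (1 - (zt ρ : ℂ) * xx z)) z := h1.clog h2
  have h4 : DifferentiableAt ℂ (Nn ρ) z := by
    unfold Nn
    simp only [div_eq_mul_inv]
    exact ((h3.mul_const _).cexp).const_add 1
  exact h4.differentiableWithinAt

noncomputable def nu (ρ : ℝ) (z : E) : ℂ := Ap ρ z / Nn ρ z

theorem nu_le (ρ : ℝ) (hρ : 1 < ρ) (z : E) (hz : ‖z‖ ≤ 1) : ‖nu ρ z‖ ≤ 1 := by
  rw [nu, norm_div, div_le_one (by linarith [Nn_norm ρ z])]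
  exact Ap_le ρ hρ z hz

theorem nu_diffOn (ρ : ℝ) (hρ : 1 < ρ) : DifferentiableOn ℂ (nu ρ) (closedBall 0 1) := by
  unfold nu
  simp only [div_eq_mul_inv]
  apply DifferentiableOn.fun_mul
  · unfold Ap
    exact ((coord_diff 0).const_mul _).differentiableOn
  · apply DifferentiableOn.fun_inv
    · exact Nn_diffOn ρ hρ
    · intro z _; exact Nn_ne ρ z

theorem bb_diffOn (ρ : ℝ) (hρ : 1 < ρ) : DifferentiableOn ℂ (bb ρ) (closedBall 0 1) := by
  unfold bb
  simp only [div_eq_mul_inv]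
  apply DifferentiableOn.fun_mul
  · exact (xx_diff.const_sub _).differentiableOn
  · apply DifferentiableOn.fun_inv
    · exact ((xx_diff.const_mul _).const_sub _).differentiableOn
    · intro z hz; exact base_ne ρ hρ z (by simpa using hz)

/-- The first factor. -/
noncomputable def ps (ρ R : ℝ) (n : ℕ) (z : E) : ℂ := 1 - ((R : ℂ) * nu ρ z) ^ n

theorem ps_diffOn (ρ R : ℝ) (n : ℕ) (hρ : 1 < ρ) : DifferentiableOn ℂ (ps ρ R n) (closedBall 0 1) := by
  unfold ps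
  exact (((nu_diffOn ρ hρ).const_mul (R:ℂ)).pow n).const_sub 1

/-- The poles. -/
noncomputable def pole (ρ R : ℝ) (n k : ℕ) : E := zc ρ (((ρ * R : ℝ) : ℂ) * om n ^ k)

theorem om_conj (n k : ℕ) : (starRingEnd ℂ) (om n ^ k) * om n ^ k = 1 := by
  rw [mul_comm, Complex.mul_conj, Complex.normSq_eq_norm_sq, norm_pow, norm_om]; simp

theorem om_ne (n k : ℕ) : om n ^ k ≠ 0 := by
  intro h
  have := om_conj n k
  rw [h, mul_zero] at this
  exact zero_ne_one this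

theorem sqrt_half (t : ℝ) : √(2 * t) = 2 * √(t / 2) := by
  rw [show 2 * t = 2 ^ 2 * (t / 2) by ring, Real.sqrt_mul (by norm_num), Real.sqrt_sq (by norm_num)]

theorem inner_pole (ρ R : ℝ) (hρ : 1 < ρ) (hR : 0 < R) (n k : ℕ) (z : E) :
    2 * inner ℂ (pole ρ R n k) z = (R:ℂ) * (starRingEnd ℂ) (om n ^ k) * Ap ρ z + (R:ℂ)⁻¹ * om n ^ k * Bp ρ z := by
  have h1 := om_conj n k
  have h2 := om_ne n k
  have h3 : (starRingEnd ℂ) (om n ^ k) = (om n ^ k)⁻¹ := eq_inv_of_mul_eq_one_left h1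
  rw [pole, inner_zc, Ap, Bp, sqrt_half (zt ρ), map_mul, Complex.conj_ofReal, h3]
  have hρ' : (ρ:ℂ) ≠ 0 := by exact_mod_cast (by linarith : ρ ≠ 0)
  have hR' : (R:ℂ) ≠ 0 := by exact_mod_cast hR.ne'
  push_cast
  field_simp

theorem ps_zero (ρ R : ℝ) (hρ : 1 < ρ) (hR : 1 < R) (n : ℕ) (hn : 0 < n) (k : ℕ) (z : E) (hz : ‖z‖ ≤ 1)
    (h : inner ℂ (pole ρ R n k) z = 1) : ps ρ R n z = 0 := by
  have h1 := inner_pole ρ R hρ (by linarith) n k z
  rw [h, mul_one] at h1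
  have h2 := Ap_Bp ρ hρ z
  have h3 := Nn_eq ρ hρ z hz
  have hN := Nn_ne ρ z
  have hc := om_conj n k
  have hR' : (R:ℂ) ≠ 0 := by exact_mod_cast (by linarith : R ≠ 0)
  have hRR : (R:ℂ) * (R:ℂ)⁻¹ = 1 := mul_inv_cancel₀ hR'
  set N := Nn ρ z
  set A := Ap ρ z
  set B := Bp ρ z
  set o := om n ^ k with ho
  have h4 : (N - (R:ℂ) * (starRingEnd ℂ) o * A) * (N - (R:ℂ)⁻¹ * o * B) = 0 := by
    have : (N - (R:ℂ) * (starRingEnd ℂ) o * A) * (N - (R:ℂ)⁻¹ * o * B) =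
        N ^ 2 - N * ((R:ℂ) * (starRingEnd ℂ) o * A + (R:ℂ)⁻¹ * o * B) + ((R:ℂ) * (R:ℂ)⁻¹) * ((starRingEnd ℂ) o * o) * (A * B) := by
      ring
    rw [this, ← h1, hRR, hc, h2, ← h3]; ring
  rcases mul_eq_zero.mp h4 with h5 | h5
  · have h6 : (R:ℂ) * nu ρ z = o := by
      have : (R:ℂ) * nu ρ z = (R:ℂ) * A / N := by rw [nu]; ring
      rw [this, div_eq_iff hN]
      linear_combination (-o) * h5 - ((R:ℂ) * A) * hc
    rw [ps, h6, ho, ← pow_mul, mul_comm k n, pow_mul, om_pow n hn, one_pow, sub_self]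
  · exfalso
    have h6 : N = (R:ℂ)⁻¹ * o * B := by linear_combination h5
    have h7 : ‖N‖ = R⁻¹ * ‖B‖ := by
      rw [h6, norm_mul, norm_mul, norm_inv, Complex.norm_real, Real.norm_eq_abs, abs_of_pos (by linarith : 0 < R), ho,
        norm_pow, norm_om, one_pow, mul_one]
    have h8 := Bp_le ρ hρ z hz
    have h9 := Nn_norm ρ z
    have h10 : R⁻¹ < 1 := inv_lt_one_of_one_lt₀ hR
    have h11 : 0 < R⁻¹ := by positivity
    have h12 : R⁻¹ * ‖B‖ ≤ R⁻¹ * ‖N‖ := mul_le_mul_of_nonneg_left h8 h11.le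
    have h13 : 1 ≤ ‖N‖ := h9
    nlinarith

/-- The first factor tends to one away from the quadric. -/
theorem ps_conv (ρ : ℝ) (hρ : 1 < ρ) (c : ℝ) (hc : 0 < c) (e : ℝ) (he : 0 < e) :
    ∀ᶠ n : ℕ in atTop, ∀ z ∈ closedBall (0:E) 1, ‖bb ρ z‖ * ‖ps ρ (1 + c / n) n z - 1‖ ≤ e := by
  have hec := Real.exp_pos c
  set A : Set E := {z | z ∈ closedBall (0:E) 1 ∧ e / Real.exp c ≤ ‖bb ρ z‖} with hA
  have hAc : IsCompact A := by
    have : A = closedBall (0:E) 1 ∩ (fun z => ‖bb ρ z‖) ⁻¹' (Set.Ici (e / Real.exp c)) := by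
      ext z; simp [hA]
    rw [this]
    exact (isCompact_closedBall (0:E) 1).of_isClosed_subset
      (((bb_diffOn ρ hρ).continuousOn.norm).preimage_isClosed_of_isClosed isClosed_closedBall isClosed_Ici)
      Set.inter_subset_left
  obtain ⟨θ, hθ0, hθ1, hθA⟩ : ∃ θ : ℝ, 0 ≤ θ ∧ θ < 1 ∧ ∀ z ∈ A, ‖nu ρ z‖ ≤ θ := by
    by_cases hne : A.Nonempty
    · obtain ⟨z0, hz0, hmax⟩ := hAc.exists_isMaxOn hne (((nu_diffOn ρ hρ).continuousOn.mono (fun z hz => hz.1)).norm)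
      refine ⟨‖nu ρ z0‖, norm_nonneg _, ?_, fun z hz => hmax hz⟩
      have hz0' : ‖z0‖ ≤ 1 := by simpa using hz0.1
      apply lt_of_le_of_ne (nu_le ρ hρ z0 hz0')
      intro h1
      have h2 : ‖Ap ρ z0‖ = ‖Nn ρ z0‖ := by
        rw [nu, norm_div, div_eq_one_iff_eq (by linarith [Nn_norm ρ z0])] at h1
        exact h1
      have h3 := Ap_eq ρ hρ z0 hz0' h2
      have h4 := hz0.2
      have h5 : bb ρ z0 = 0 := by rw [bb, h3, sub_self, zero_div]
      rw [h5, norm_zero] at h4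
      have : 0 < e / Real.exp c := by positivity
      linarith
    · exact ⟨0, le_refl _, one_pos, fun z hz => absurd ⟨z, hz⟩ hne⟩
  have h2 : Tendsto (fun n : ℕ => Real.exp c * θ ^ n) atTop (𝓝 (Real.exp c * 0)) :=
    (tendsto_pow_atTop_nhds_zero_of_lt_one hθ0 hθ1).const_mul _
  rw [mul_zero] at h2
  filter_upwards [h2.eventually_le_const he, eventually_gt_atTop 0] with n hn hn0
  intro z hz
  have hz' : ‖z‖ ≤ 1 := by simpa using hz
  have hpos : 0 < 1 + c / n := by positivity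
  have e1 : ‖ps ρ (1 + c / n) n z - 1‖ = (1 + c / n) ^ n * ‖nu ρ z‖ ^ n := by
    rw [ps, sub_sub_cancel_left, norm_neg, mul_pow, norm_mul, norm_pow, norm_pow, Complex.norm_real, Real.norm_eq_abs,
      abs_of_pos hpos]
  have e2 := pow_le_exp c hc n hn0
  rw [e1]
  by_cases hzA : z ∈ A
  · calc ‖bb ρ z‖ * ((1 + c / n) ^ n * ‖nu ρ z‖ ^ n) ≤ 1 * (Real.exp c * θ ^ n) := by
          apply mul_le_mul (bb_le ρ hρ z hz') _ (by positivity) (by norm_num)
          exact mul_le_mul e2 (pow_le_pow_left₀ (norm_nonneg _) (hθA z hzA) n) (by positivity) hec.le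
      _ ≤ e := by rw [one_mul]; exact hn
  · have h5 : ‖bb ρ z‖ < e / Real.exp c := by
      by_contra h
      push Not at h
      exact hzA ⟨hz, h⟩
    calc ‖bb ρ z‖ * ((1 + c / n) ^ n * ‖nu ρ z‖ ^ n) ≤ (e / Real.exp c) * (Real.exp c * 1) := by
          apply mul_le_mul h5.le _ (by positivity) (by positivity)
          exact mul_le_mul e2 (pow_le_one₀ (norm_nonneg _) (nu_le ρ hρ z hz')) (by positivity) hec.le
      _ = e := by field_simp

end Pool.Agent.H822B
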