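import Pool.Agent.H822B.Arc2
set_option autoImplicit false
namespace Pool.Agent.H822B
open Finset Filter Topology Metric
open Pool.Agent.Helper233.BA hiding nn good_nn s_pos s_succ s_le s_tendsto ancestor KK KK_closed_level
  KK_closed norm_node_bounds KK_sphere KK_compact branch not_Z PP AA AA_succ AA_le AA_diff PP_contOn PP_diffOn
  AA_contOn AA_diffOn GG GG_contOn GG_tendsto GG_diffOn GG_zero GG_ne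

noncomputable def sg2 (ρ R : ℝ) : ℝ := zt ρ / 2 * ((ρ * R) ^ 2 + (ρ⁻¹ * R⁻¹) ^ 2) - 1

noncomputable def sg (ρ R : ℝ) : ℝ := √(sg2 ρ R)

theorem sg2_eq (ρ R : ℝ) (hρ : 1 < ρ) (hR : 1 < R) :
    sg2 ρ R = zt ρ / 2 * ((R ^ 2 - 1) * (ρ ^ 2 - (ρ⁻¹) ^ 2 * (R⁻¹) ^ 2)) := by
  have h1 := zt_mul ρ hρ
  obtain ⟨-, -, h2⟩ := inv_facts R hR
  have h3 : R ^ 2 * (R⁻¹) ^ 2 = 1 := by rw [← mul_pow, h2, one_pow]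
  rw [sg2]
  linear_combination (1/2) * h1 + (zt ρ / 2) * (ρ⁻¹) ^ 2 * h3

theorem sg2_pos (ρ R : ℝ) (hρ : 1 < ρ) (hR : 1 < R) : 0 < sg2 ρ R := by
  rw [sg2_eq ρ R hρ hR]
  have h := zt_pos ρ hρ
  obtain ⟨a1, a2, a3⟩ := inv_facts R hR
  obtain ⟨b1, b2, b3⟩ := inv_facts ρ hρ
  have h1 : (R⁻¹) ^ 2 < 1 := pow_lt_one₀ a1.le a2 two_ne_zero
  have h2 : (ρ⁻¹) ^ 2 < 1 := pow_lt_one₀ b1.le b2 two_ne_zero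
  have h3 : 1 < ρ ^ 2 := one_lt_pow₀ hρ two_ne_zero
  have h4 : 1 < R ^ 2 := one_lt_pow₀ hR two_ne_zero
  have h5 : (ρ⁻¹) ^ 2 * (R⁻¹) ^ 2 < 1 := by
    calc (ρ⁻¹) ^ 2 * (R⁻¹) ^ 2 ≤ (ρ⁻¹) ^ 2 * 1 := mul_le_mul_of_nonneg_left h1.le (by positivity)
      _ < 1 := by rw [mul_one]; exact h2
  apply mul_pos (by positivity)
  apply mul_pos <;> linarith

theorem sg_sq (ρ R : ℝ) (hρ : 1 < ρ) (hR : 1 < R) : sg ρ R ^ 2 = sg2 ρ R := Real.sq_sqrt (sg2_pos ρ R hρ hR).le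

theorem sg_pos (ρ R : ℝ) (hρ : 1 < ρ) (hR : 1 < R) : 0 < sg ρ R := Real.sqrt_pos.mpr (sg2_pos ρ R hρ hR)

theorem norm_om_pow (a : ℝ) (ha : 0 < a) (n k : ℕ) : ‖((a : ℝ) : ℂ) * om n ^ k‖ = a := norm_w n a ha k

theorem norm_pole (ρ R : ℝ) (hρ : 1 < ρ) (hR : 1 < R) (n k : ℕ) : ‖pole ρ R n k‖ ^ 2 = 1 + sg ρ R ^ 2 := by
  have hpos : 0 < ρ * R := by positivity
  rw [sg_sq ρ R hρ hR, pole, norm_zc_sq ρ hρ, norm_om_pow _ hpos, sg2, mul_inv]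
  ring

/-- The meeting points of the polar lines with the annulus. -/
noncomputable def qq (ρ R : ℝ) (n k : ℕ) : E := zc ρ (((ρ * R⁻¹ : ℝ) : ℂ) * om n ^ k)

theorem inner_pole_qq (ρ R : ℝ) (hρ : 1 < ρ) (hR : 1 < R) (n k : ℕ) : inner ℂ (pole ρ R n k) (qq ρ R n k) = 1 := by
  have h1 := om_conj n k
  have h2 := om_ne n k
  have h3 : (starRingEnd ℂ) (om n ^ k) = (om n ^ k)⁻¹ := eq_inv_of_mul_eq_one_left h1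
  have h4 := zt_mul ρ hρ
  rw [pole, qq, inner_zc_zc ρ hρ, map_mul, Complex.conj_ofReal, h3]
  have hρ' : (ρ:ℂ) ≠ 0 := by exact_mod_cast (by linarith : ρ ≠ 0)
  have hR' : (R:ℂ) ≠ 0 := by exact_mod_cast (by linarith : R ≠ 0)
  have h5 : ((zt ρ : ℝ) : ℂ) * ((ρ:ℂ) ^ 2 + ((ρ:ℂ)⁻¹) ^ 2) = 2 := by
    have := congrArg (fun t : ℝ => (t : ℂ)) h4
    push_cast at this
    exact this
  push_cast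
  have e1 : (ρ:ℂ) * R * (om n ^ k)⁻¹ * (ρ * (R:ℂ)⁻¹ * om n ^ k) = (ρ:ℂ) ^ 2 := by field_simp
  have e2 : ((ρ:ℂ) * R * (om n ^ k)⁻¹)⁻¹ * (ρ * (R:ℂ)⁻¹ * om n ^ k)⁻¹ = ((ρ:ℂ)⁻¹) ^ 2 := by field_simp
  rw [e1, e2]
  linear_combination h5 / 2

theorem norm_qq_sq (ρ R : ℝ) (hρ : 1 < ρ) (hR : 1 < R) (n k : ℕ) :
    ‖qq ρ R n k‖ ^ 2 = zt ρ / 2 * ((ρ * R⁻¹) ^ 2 + (ρ⁻¹ * R) ^ 2) := by
  have hpos : 0 < ρ * R⁻¹ := by positivity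
  rw [qq, norm_zc_sq ρ hρ, norm_om_pow _ hpos, mul_inv, inv_inv]

theorem norm_zc_lt (ρ : ℝ) (hρ : 1 < ρ) (l : ℂ) (h1 : ρ⁻¹ < ‖l‖) (h2 : ‖l‖ < ρ) : ‖zc ρ l‖ < 1 := by
  have h := norm_zc_sq ρ hρ l
  have hz := zt_pos ρ hρ
  have hm := zt_mul ρ hρ
  obtain ⟨b1, b2, b3⟩ := inv_facts ρ hρ
  set x := ‖l‖ with hx
  have hx0 : 0 < x := b1.trans h1
  have hxx : x * x⁻¹ = 1 := mul_inv_cancel₀ hx0.ne'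
  have hxi : 0 < x⁻¹ := by positivity
  have key : x ^ 2 + (x⁻¹) ^ 2 < ρ ^ 2 + (ρ⁻¹) ^ 2 := by
    have e1 : ρ ^ 2 + (ρ⁻¹) ^ 2 - (x ^ 2 + (x⁻¹) ^ 2) = (x⁻¹) ^ 2 * ((ρ ^ 2 - x ^ 2) * (x ^ 2 - (ρ⁻¹) ^ 2)) := by
      have hx2 : (x⁻¹) ^ 2 * x ^ 2 = 1 := by rw [← mul_pow, inv_mul_cancel₀ hx0.ne', one_pow]
      have hρ2 : ρ ^ 2 * (ρ⁻¹) ^ 2 = 1 := by rw [← mul_pow, b3, one_pow]
      linear_combination (-(ρ ^ 2 + (ρ⁻¹) ^ 2) + x ^ 2) * hx2 + (x⁻¹) ^ 2 * hρ2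
    have h3 : 0 < ρ ^ 2 - x ^ 2 := by nlinarith
    have h4 : 0 < x ^ 2 - (ρ⁻¹) ^ 2 := by nlinarith
    have : 0 < (x⁻¹) ^ 2 * ((ρ ^ 2 - x ^ 2) * (x ^ 2 - (ρ⁻¹) ^ 2)) := by positivity
    linarith
  have h5 : ‖zc ρ l‖ ^ 2 < 1 := by
    rw [h]
    calc zt ρ / 2 * (x ^ 2 + (x⁻¹) ^ 2) < zt ρ / 2 * (ρ ^ 2 + (ρ⁻¹) ^ 2) := mul_lt_mul_of_pos_left key (by positivity)
      _ = 1 := by linarith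
  nlinarith [norm_nonneg (zc ρ l)]

/-- The smallness condition on `R`. -/
def Cond (ρ R : ℝ) : Prop :=
  sg ρ R ≤ 1 / 12 ∧ 2 * zt ρ * (R ^ 2 - 1) * (R ^ 2 + 1) ^ 2 * (R⁻¹) ^ 4 ≤ ρ ^ 2 - (ρ⁻¹) ^ 2 * (R⁻¹) ^ 2 ∧
    R ^ 2 ≤ ρ ∧ ρ⁻¹ < ρ * (2 * R⁻¹ - 1)

theorem cond_near (ρ : ℝ) (hρ : 1 < ρ) : ∀ᶠ R in 𝓝 (1:ℝ), Cond ρ R := by
  obtain ⟨b1, b2, b3⟩ := inv_facts ρ hρ
  have h0 := zt_pos ρ hρ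
  have hinv : ContinuousAt (fun R : ℝ => R⁻¹) 1 := continuousAt_inv₀ one_ne_zero
  have hid : ContinuousAt (fun R : ℝ => R) 1 := continuousAt_id
  have e1 : ∀ᶠ R in 𝓝 (1:ℝ), sg ρ R < 1 / 12 := by
    have hc : ContinuousAt (fun R : ℝ => sg ρ R) 1 := by
      unfold sg sg2
      apply ContinuousAt.sqrt
      fun_prop (disch := norm_num)
    apply hc.eventually_lt continuousAt_const
    have : sg ρ 1 = 0 := by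
      rw [sg, sg2, inv_one, mul_one, mul_one, div_mul_eq_mul_div, zt_mul ρ hρ]; simp
    rw [this]; norm_num
  have e2 : ∀ᶠ R in 𝓝 (1:ℝ), 2 * zt ρ * (R ^ 2 - 1) * (R ^ 2 + 1) ^ 2 * (R⁻¹) ^ 4 < ρ ^ 2 - (ρ⁻¹) ^ 2 * (R⁻¹) ^ 2 := by
    have hc1 : ContinuousAt (fun R : ℝ => 2 * zt ρ * (R ^ 2 - 1) * (R ^ 2 + 1) ^ 2 * (R⁻¹) ^ 4) 1 := by
      fun_prop (disch := norm_num)
    have hc2 : ContinuousAt (fun R : ℝ => ρ ^ 2 - (ρ⁻¹) ^ 2 * (R⁻¹) ^ 2) 1 := by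
      fun_prop (disch := norm_num)
    apply hc1.eventually_lt hc2
    have h1 : (ρ⁻¹) ^ 2 < ρ ^ 2 := pow_lt_pow_left₀ (by linarith) b1.le two_ne_zero
    have h2 : 2 * zt ρ * ((1:ℝ) ^ 2 - 1) * ((1:ℝ) ^ 2 + 1) ^ 2 * ((1:ℝ)⁻¹) ^ 4 = 0 := by ring
    have h3 : ρ ^ 2 - (ρ⁻¹) ^ 2 * ((1:ℝ)⁻¹) ^ 2 = ρ ^ 2 - (ρ⁻¹) ^ 2 := by rw [inv_one]; ring
    rw [h2, h3]
    linarith
  have e3 : ∀ᶠ R in 𝓝 (1:ℝ), R ^ 2 < ρ := by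
    have hc1 : ContinuousAt (fun R : ℝ => R ^ 2) 1 := by fun_prop
    apply hc1.eventually_lt continuousAt_const
    simpa using hρ
  have e4 : ∀ᶠ R in 𝓝 (1:ℝ), ρ⁻¹ < ρ * (2 * R⁻¹ - 1) := by
    have hc2 : ContinuousAt (fun R : ℝ => ρ * (2 * R⁻¹ - 1)) 1 := by
      fun_prop (disch := norm_num)
    apply continuousAt_const.eventually_lt hc2
    norm_num
    linarith
  filter_upwards [e1, e2, e3, e4] with R h1 h2 h3 h4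
  exact ⟨h1.le, h2.le, h3.le, h4⟩

theorem xf_qq (ρ R : ℝ) (hρ : 1 < ρ) (hR : 1 < R) (hC : Cond ρ R) (n k : ℕ) :
    ‖xf (sg ρ R) (pole ρ R n k) (qq ρ R n k)‖ ≤ 1 / 2 := by
  have hs := sg_pos ρ R hρ hR
  have hn := norm_pole ρ R hρ hR n k
  have hin := inner_pole_qq ρ R hρ hR n k
  have h1 := node_xf (sg ρ R) hs _ hn _ hin
  have h2 := norm_node_sq (sg ρ R) _ hn (xf (sg ρ R) (pole ρ R n k) (qq ρ R n k))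
  rw [h1, norm_qq_sq ρ R hρ hR] at h2
  set X := ‖xf (sg ρ R) (pole ρ R n k) (qq ρ R n k)‖ with hX
  have hsq := sg_sq ρ R hρ hR
  have hpos : 0 < 1 + sg ρ R ^ 2 := by positivity
  rw [eq_div_iff hpos.ne'] at h2
  obtain ⟨a1, a2, a3⟩ := inv_facts R hR
  obtain ⟨b1, b2, b3⟩ := inv_facts ρ hρ
  have hz := zt_mul ρ hρ
  have hz0 := zt_pos ρ hρ
  have h3 : X ^ 2 * sg ρ R ^ 2 = zt ρ ^ 2 / 4 * (R ^ 2 - (R⁻¹) ^ 2) ^ 2 := by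
    have e0 : 1 + sg ρ R ^ 2 = zt ρ / 2 * ((ρ * R) ^ 2 + (ρ⁻¹ * R⁻¹) ^ 2) := by rw [hsq, sg2]; ring
    rw [e0] at h2
    have e1 : ((ρ * R⁻¹) ^ 2 + (ρ⁻¹ * R) ^ 2) * ((ρ * R) ^ 2 + (ρ⁻¹ * R⁻¹) ^ 2) =
        (ρ ^ 2 + (ρ⁻¹) ^ 2) ^ 2 + (R ^ 2 - (R⁻¹) ^ 2) ^ 2 := by
      have e2 : ρ ^ 2 * (ρ⁻¹) ^ 2 = 1 := by rw [← mul_pow, b3, one_pow]
      have e3 : R ^ 2 * (R⁻¹) ^ 2 = 1 := by rw [← mul_pow, a3, one_pow]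
      linear_combination (ρ ^ 4 + (ρ⁻¹) ^ 4 + 2) * e3 + ((R⁻¹) ^ 4 + R ^ 4 - 2) * e2
    have e4 : zt ρ ^ 2 / 4 * (ρ ^ 2 + (ρ⁻¹) ^ 2) ^ 2 = 1 := by
      have : zt ρ ^ 2 / 4 * (ρ ^ 2 + (ρ⁻¹) ^ 2) ^ 2 = (zt ρ * (ρ ^ 2 + (ρ⁻¹) ^ 2)) ^ 2 / 4 := by ring
      rw [this, hz]; norm_num
    linear_combination -h2 + (zt ρ ^ 2 / 4) * e1 + e4
  have h4 : zt ρ ^ 2 / 4 * (R ^ 2 - (R⁻¹) ^ 2) ^ 2 ≤ (1/2) ^ 2 * sg ρ R ^ 2 := by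
    rw [hsq, sg2_eq ρ R hρ hR]
    have e3 : R ^ 2 * (R⁻¹) ^ 2 = 1 := by rw [← mul_pow, a3, one_pow]
    have e5 : (R ^ 2 - (R⁻¹) ^ 2) ^ 2 = (R ^ 2 - 1) * ((R ^ 2 - 1) * (R ^ 2 + 1) ^ 2 * (R⁻¹) ^ 4) := by
      have : (R ^ 2 - (R⁻¹) ^ 2) = (R ^ 2 - 1) * (R ^ 2 + 1) * (R⁻¹) ^ 2 := by
        linear_combination (-R ^ 2) * e3
      rw [this]; ring
    have hR2 : 0 < R ^ 2 - 1 := by nlinarith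
    have h5 := hC.2.1
    have h6 := mul_le_mul_of_nonneg_left h5 (by positivity : 0 ≤ zt ρ / 8 * (R ^ 2 - 1))
    rw [e5]
    nlinarith
  rw [← h3] at h4
  have hs2 : 0 < sg ρ R ^ 2 := by positivity
  have h5 : X ^ 2 ≤ (1/2) ^ 2 := le_of_mul_le_mul_right h4 hs2
  exact le_of_sq_le_sq h5 (by norm_num)

end Pool.Agent.H822B
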