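import Pool.Agent.H822B.Piece
set_option autoImplicit false
namespace Pool.Agent.H822B
open Finset Filter Topology Metric
open Pool.Agent.Helper233.BA hiding nn good_nn s_pos s_succ s_le s_tendsto ancestor KK KK_closed_level
  KK_closed norm_node_bounds KK_sphere KK_compact branch not_Z PP AA AA_succ AA_le AA_diff PP_contOn PP_diffOn
  AA_contOn AA_diffOn GG GG_contOn GG_tendsto GG_diffOn GG_zero GG_ne

noncomputable def rh (j : ℕ) : ℝ := 1 + (1/2) ^ j

theorem rh_gt (j : ℕ) : 1 < rh j := by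
  have : 0 < (1/2 : ℝ) ^ j := by positivity
  unfold rh; linarith

theorem zt_close (ρ : ℝ) (hρ : 1 < ρ) : 1 - zt ρ ≤ 2 * (ρ - 1) ^ 2 := by
  obtain ⟨b1, b2, b3⟩ := inv_facts ρ hρ
  have h1 := zt_mul ρ hρ
  have h0 : 2 ≤ ρ ^ 2 + (ρ⁻¹) ^ 2 := by nlinarith [sq_nonneg (ρ - ρ⁻¹)]
  have h2 : (1 - zt ρ) * (ρ ^ 2 + (ρ⁻¹) ^ 2) = (ρ - ρ⁻¹) ^ 2 := by
    linear_combination -h1 + 2 * b3
  have h3 : (ρ - ρ⁻¹) ^ 2 ≤ (2 * (ρ - 1)) ^ 2 := by
    apply pow_le_pow_left₀ (by linarith)
    nlinarith
  have h4 := zt_lt ρ hρ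
  nlinarith

theorem zt_rh (j : ℕ) : 1 - zt (rh j) ≤ 2 * (1/2) ^ j := by
  refine (zt_close _ (rh_gt j)).trans ?_
  have h1 : rh j - 1 = (1/2) ^ j := by unfold rh; ring
  rw [h1]
  have h2 : 0 < (1/2 : ℝ) ^ j := by positivity
  have h3 : (1/2 : ℝ) ^ j ≤ 1 := pow_le_one₀ (by norm_num) (by norm_num)
  nlinarith

theorem zt_tendsto : Tendsto (fun j => zt (rh j)) atTop (𝓝 1) := by
  have h1 : Tendsto (fun j : ℕ => (1:ℝ) - 2 * (1/2) ^ j) atTop (𝓝 (1 - 2 * 0)) :=
    ((tendsto_pow_atTop_nhds_zero_of_lt_one (by norm_num) (by norm_num)).const_mul 2).const_sub 1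
  rw [mul_zero, sub_zero] at h1
  exact tendsto_of_tendsto_of_tendsto_of_le_of_le h1 tendsto_const_nhds
    (fun j => by have := zt_rh j; simp only; linarith) (fun j => (zt_lt _ (rh_gt j)).le)

/-- The special boundary point. -/
noncomputable def pt : E := !₂[-((√(1 / 2) : ℝ) : ℂ), -((√(1 / 2) : ℝ) : ℂ)]

theorem zc_neg (j : ℕ) : zc (rh j) (-1) = !₂[-((√(zt (rh j) / 2) : ℝ) : ℂ), -((√(zt (rh j) / 2) : ℝ) : ℂ)] := by
  unfold zc
  simp

theorem zc_tendsto : Tendsto (fun j => zc (rh j) (-1)) atTop (𝓝 pt) := by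
  have h1 : Tendsto (fun j => √(zt (rh j) / 2)) atTop (𝓝 (√(1 / 2))) :=
    (Real.continuous_sqrt.tendsto _).comp (zt_tendsto.div_const 2)
  have h2 : Tendsto (fun j => -((√(zt (rh j) / 2) : ℝ) : ℂ)) atTop (𝓝 (-((√(1 / 2) : ℝ) : ℂ))) :=
    ((Complex.continuous_ofReal.tendsto _).comp h1).neg
  have h3 : Continuous (fun t : ℂ => (!₂[t, t] : E)) := by fun_prop
  have h4 := (h3.tendsto (-((√(1 / 2) : ℝ) : ℂ))).comp h2
  refine h4.congr (fun j => ?_)
  rw [zc_neg]; rfl

theorem pt_norm : ‖pt‖ = 1 := by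
  have h : ‖pt‖ ^ 2 = 1 := by
    rw [norm_sq_two]
    simp only [pt, PiLp.toLp_apply, Matrix.cons_val_zero, Matrix.cons_val_one, norm_neg, Complex.norm_real,
      Real.norm_eq_abs, sq_abs]
    rw [Real.sq_sqrt (by norm_num)]; norm_num
  have h1 := norm_nonneg pt
  nlinarith

theorem pt_re : (pt 0).re < 0 := by
  have : (pt 0).re = -√(1 / 2) := by
    simp only [pt, PiLp.toLp_apply, Matrix.cons_val_zero, Complex.neg_re, Complex.ofReal_re]
  rw [this]
  have : 0 < √(1 / 2 : ℝ) := Real.sqrt_pos.mpr (by norm_num)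
  linarith

theorem finprod_alg (J : ℕ) (G : ℕ → E → ℂ) (hc : ∀ j, ContinuousOn (G j) (closedBall (0:E) 1))
    (hd : ∀ j, DifferentiableOn ℂ (G j) (ball (0:E) 1)) :
    ContinuousOn (fun z => ∏ j ∈ range J, G j z) (closedBall (0:E) 1) ∧
    DifferentiableOn ℂ (fun z => ∏ j ∈ range J, G j z) (ball (0:E) 1) := by
  induction J with
  | zero => simp only [Finset.range_zero, Finset.prod_empty]; exact ⟨continuousOn_const, differentiableOn_const _⟩
  | succ J ih =>
    simp only [Finset.prod_range_succ]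
    exact ⟨ih.1.mul (hc J), ih.2.fun_mul (hd J)⟩

/-- The infinite product of the factors, damped by `1 - xx`. -/
theorem inf_prod (H : ℕ → E → ℂ) (hc : ∀ j, ContinuousOn (H j) (closedBall (0:E) 1))
    (hd : ∀ j, DifferentiableOn ℂ (H j) (ball (0:E) 1))
    (hb : ∀ j, ∀ z ∈ closedBall (0:E) 1, ‖H j z‖ ≤ 1 + (1/2) ^ j)
    (hs : ∀ j, ∀ z ∈ closedBall (0:E) 1, ‖1 - xx z‖ * ‖H j z - 1‖ ≤ 10 * (1/2) ^ j) :
    ∃ T : E → ℂ, ContinuousOn T (closedBall (0:E) 1) ∧ DifferentiableOn ℂ T (ball (0:E) 1) ∧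
      ∀ z ∈ closedBall (0:E) 1, Tendsto (fun k => (1 - xx z) * ∏ i ∈ range k, H i z) atTop (𝓝 (T z)) := by
  set B : ℕ → E → ℂ := fun k z => ∏ i ∈ range k, H i z with hB
  have hBle : ∀ k, ∀ z ∈ closedBall (0:E) 1, ‖B k z‖ ≤ Real.exp 2 := by
    intro k z hz
    have h1 : ‖B k z‖ ≤ Real.exp (∑ i ∈ range k, (1/2 : ℝ) ^ i) := by
      rw [hB, Real.exp_sum]
      simp only [norm_prod]
      apply Finset.prod_le_prod (fun i _ => norm_nonneg _)
      intro i _
      refine (hb i z hz).trans ?_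
      have := Real.add_one_le_exp ((1/2 : ℝ) ^ i)
      linarith
    refine h1.trans (Real.exp_le_exp.mpr ?_)
    have h2 : ∑ i ∈ range k, (1/2 : ℝ) ^ i ≤ ∑' i, (1/2 : ℝ) ^ i :=
      half_summable.sum_le_tsum _ (fun i _ => by positivity)
    rw [tsum_geometric_two] at h2
    exact h2
  have hdiff : ∀ k, ∀ z ∈ closedBall (0:E) 1,
      ‖(1 - xx z) * B (k+1) z - (1 - xx z) * B k z‖ ≤ Real.exp 2 * (10 * (1/2) ^ k) := by
    intro k z hz
    have e1 : (1 - xx z) * B (k+1) z - (1 - xx z) * B k z = B k z * ((1 - xx z) * (H k z - 1)) := by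
      simp only [hB, Finset.prod_range_succ]; ring
    rw [e1, norm_mul, norm_mul]
    exact mul_le_mul (hBle k z hz) (hs k z hz) (by positivity) (Real.exp_pos _).le
  have hsum : Summable (fun k : ℕ => Real.exp 2 * (10 * (1/2 : ℝ) ^ k)) :=
    (half_summable.mul_left 10).mul_left _
  have hTc : ∀ k, ContinuousOn (fun z => (1 - xx z) * B k z) (closedBall (0:E) 1) := fun k =>
    (continuousOn_const.sub xx_diff.continuous.continuousOn).mul (finprod_alg k H hc hd).1
  have hTd : ∀ k, DifferentiableOn ℂ (fun z => (1 - xx z) * B k z) (ball (0:E) 1) := fun k =>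
    (xx_diff.const_sub 1).differentiableOn.fun_mul (finprod_alg k H hc hd).2
  refine ⟨fun z => (1 - xx z) * B 0 z + ∑' k : ℕ, ((1 - xx z) * B (k+1) z - (1 - xx z) * B k z), ?_, ?_, ?_⟩
  · exact (hTc 0).add (continuousOn_tsum (fun k => (hTc (k+1)).sub (hTc k)) hsum (fun k z hz => hdiff k z hz))
  · exact (hTd 0).add (tsum_diffOn _ (fun k => (hTd (k+1)).sub (hTd k)) _ hsum
      (fun k z hz => hdiff k z (ball_subset_closedBall hz)))
  · intro z hz
    have hs : Summable (fun k : ℕ => ((1 - xx z) * B (k+1) z - (1 - xx z) * B k z)) :=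
      Summable.of_norm_bounded hsum (fun k => hdiff k z hz)
    have h1 := hs.hasSum.tendsto_sum_nat
    have h2 := h1.const_add ((1 - xx z) * B 0 z)
    refine h2.congr (fun k => ?_)
    have := Finset.sum_range_sub (fun k => (1 - xx z) * B k z) k
    rw [this]; ring

theorem zero_closure (f : E → ℂ) (hc : ContinuousOn f (closedBall (0:E) 1)) (A : Set E) (hA : A ⊆ closedBall (0:E) 1)
    (h : ∀ x ∈ A, f x = 0) : ∀ x ∈ closure A, f x = 0 := by
  have hcl : IsClosed (closedBall (0:E) 1 ∩ f ⁻¹' {0}) := hc.preimage_isClosed_of_isClosed isClosed_closedBall isClosed_singleton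
  intro x hx
  have h1 : closure A ⊆ closedBall (0:E) 1 ∩ f ⁻¹' {0} := closure_minimal (fun y hy => ⟨hA hy, h y hy⟩) hcl
  exact (h1 hx).2

/-- The main theorem in dimension two. -/
theorem main2 : ∃ K : Set E, IsCompact K ∧ K ⊆ sphere (0:E) 1 ∧
    (∃ p ∈ sphere (0:E) 1, p ∉ K ∧ ∀ f : E → ℂ, ContinuousOn f (closedBall (0:E) 1) →
      DifferentiableOn ℂ f (ball (0:E) 1) → (∀ x ∈ K, f x = 0) → f p = 0) ∧
    (∀ z ∈ ball (0:E) 1, ∃ f : E → ℂ, ContinuousOn f (closedBall (0:E) 1) ∧
      DifferentiableOn ℂ f (ball (0:E) 1) ∧ (∀ x ∈ K, f x = 0) ∧ f z ≠ 0) := by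
  choose K hKs hKh hA hB hC using fun j : ℕ =>
    piece (rh j) (rh_gt j) ((1/2) ^ j) ((1/2) ^ j) (by positivity) (by positivity)
  choose H hHc hHd hH0 hHb hHs using hB
  have hsub : (⋃ j, K j) ⊆ sphere (0:E) 1 := Set.iUnion_subset hKs
  have hsubc : closure (⋃ j, K j) ⊆ sphere (0:E) 1 := closure_minimal hsub isClosed_sphere
  refine ⟨closure (⋃ j, K j), (isCompact_sphere (0:E) 1).of_isClosed_subset isClosed_closure hsubc, hsubc, ?_, ?_⟩
  · refine ⟨pt, by rw [mem_sphere_zero_iff_norm]; exact pt_norm, ?_, ?_⟩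
    · intro hp
      have hcl : IsClosed {x : E | 0 ≤ (x 0).re} := isClosed_le continuous_const (by fun_prop)
      have h1 : closure (⋃ j, K j) ⊆ {x : E | 0 ≤ (x 0).re} :=
        closure_minimal (Set.iUnion_subset (fun j x hx => hKh j x hx)) hcl
      have h2 : 0 ≤ (pt 0).re := h1 hp
      linarith [pt_re]
    · intro f hc hd h0
      obtain ⟨C0, hC0⟩ := (isCompact_closedBall (0:E) 1).exists_bound_of_continuousOn hc
      set C := |C0| + 1 with hCdef
      have hCpos : 0 < C := by positivity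
      have hCb : ∀ z ∈ closedBall (0:E) 1, ‖f z‖ ≤ C := by
        intro z hz
        have := hC0 z hz
        have := le_abs_self C0
        linarith
      have hbd : ∀ j, ‖f (zc (rh j) (-1))‖ ≤ C * (1/2) ^ j := by
        intro j
        have h1 := hA j (fun z => (C:ℂ)⁻¹ * f z) (continuousOn_const.mul hc) (hd.const_mul _)
          (by
            intro z hz
            rw [norm_mul, norm_inv, Complex.norm_real, Real.norm_eq_abs, abs_of_pos hCpos, inv_mul_le_iff₀ hCpos, mul_one]
            exact hCb z (ball_subset_closedBall hz))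
          (by
            intro x hx
            rw [h0 x (subset_closure (Set.mem_iUnion_of_mem j hx)), mul_zero])
        simp only [norm_mul, norm_inv, Complex.norm_real, Real.norm_eq_abs] at h1
        rw [abs_of_pos hCpos, inv_mul_le_iff₀ hCpos] at h1
        exact h1
      have hmem : ∀ j, zc (rh j) (-1) ∈ closedBall (0:E) 1 := by
        intro j
        rw [mem_closedBall_zero_iff]
        obtain ⟨b1, b2, b3⟩ := inv_facts (rh j) (rh_gt j)
        have hn1 : ‖(-1:ℂ)‖ = 1 := by simp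
        exact (norm_zc_lt (rh j) (rh_gt j) (-1) (by rw [hn1]; exact b2) (by rw [hn1]; exact rh_gt j)).le
      have hptm : pt ∈ closedBall (0:E) 1 := by rw [mem_closedBall_zero_iff, pt_norm]
      have hlim : Tendsto (fun j => f (zc (rh j) (-1))) atTop (𝓝 (f pt)) := by
        have h2 : Tendsto (fun j => zc (rh j) (-1)) atTop (𝓝[closedBall (0:E) 1] pt) := by
          rw [tendsto_nhdsWithin_iff]
          exact ⟨zc_tendsto, Filter.Eventually.of_forall hmem⟩
        exact (hc pt hptm).tendsto.comp h2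
      have hz : Tendsto (fun j => f (zc (rh j) (-1))) atTop (𝓝 0) := by
        apply squeeze_zero_norm hbd
        have : Tendsto (fun j : ℕ => C * (1/2 : ℝ) ^ j) atTop (𝓝 (C * 0)) :=
          (tendsto_pow_atTop_nhds_zero_of_lt_one (by norm_num) (by norm_num)).const_mul C
        rwa [mul_zero] at this
      exact tendsto_nhds_unique hlim hz
  · intro z hz
    have hzc : z ∈ closedBall (0:E) 1 := ball_subset_closedBall hz
    have hzn : ‖z‖ < 1 := by simpa using hz
    have hx1 : ‖xx z‖ < 1 := by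
      have h1 := norm_sq_two z
      have h2 : ‖xx z‖ = 2 * ‖z 0‖ * ‖z 1‖ := by simp [xx]
      rw [h2]
      nlinarith [sq_nonneg (‖z 0‖ - ‖z 1‖), norm_nonneg z]
    have ha : 0 < ‖1 - xx z‖ := by
      rw [norm_pos_iff]
      intro h
      have : xx z = 1 := by linear_combination -h
      rw [this, norm_one] at hx1
      exact lt_irrefl _ hx1
    set a := ‖1 - xx z‖ with hadef
    obtain ⟨J, hJ⟩ := exists_pow_lt_of_lt_one (show 0 < a / 40 by positivity) (show (1/2 : ℝ) < 1 by norm_num)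
    obtain ⟨T, hTc, hTd, hTlim⟩ := inf_prod (fun i => H (J + i)) (fun i => hHc _) (fun i => hHd _)
      (by
        intro i y hy
        refine (hHb (J+i) y hy).trans ?_
        have : (1/2 : ℝ) ^ (J+i) ≤ (1/2) ^ i := pow_le_pow_of_le_one (by norm_num) (by norm_num) (by omega)
        linarith)
      (by
        intro i y hy
        refine (hHs (J+i) y hy).trans ?_
        have h1 : (1/2 : ℝ) ^ (J+i) ≤ (1/2) ^ i := pow_le_pow_of_le_one (by norm_num) (by norm_num) (by omega)
        have h2 := zt_rh (J+i)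
        linarith)
    choose G hGc hGd hG0 hGz using fun j => hC j z hz
    have hfin := finprod_alg J G hGc hGd
    refine ⟨fun y => (∏ j ∈ range J, G j y) * T y, hfin.1.mul hTc, hfin.2.fun_mul hTd, ?_, ?_⟩
    · apply zero_closure _ (hfin.1.mul hTc) _ (hsub.trans sphere_subset_closedBall)
      intro x hx
      obtain ⟨j, hj⟩ := Set.mem_iUnion.mp hx
      have hxc : x ∈ closedBall (0:E) 1 := sphere_subset_closedBall (hKs j hj)
      by_cases hjJ : j < J
      · have : ∏ j ∈ range J, G j x = 0 := Finset.prod_eq_zero (Finset.mem_range.mpr hjJ) (hG0 j x hj)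
        simp only [Pi.mul_apply, this, zero_mul]
      · obtain ⟨i, rfl⟩ := Nat.exists_eq_add_of_le (not_lt.mp hjJ)
        have hT0 : T x = 0 := by
          have h1 := hTlim x hxc
          have h2 : Tendsto (fun k => (1 - xx x) * ∏ i ∈ range k, H (J + i) x) atTop (𝓝 0) := by
            apply tendsto_const_nhds.congr'
            filter_upwards [eventually_gt_atTop i] with k hk
            have : ∏ i ∈ range k, H (J + i) x = 0 := Finset.prod_eq_zero (Finset.mem_range.mpr hk) (hH0 (J+i) x hj)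
            rw [this, mul_zero]
          exact tendsto_nhds_unique h1 h2
        simp only [Pi.mul_apply, hT0, mul_zero]
    · apply mul_ne_zero
      · exact Finset.prod_ne_zero_iff.mpr (fun j _ => hGz j)
      · have hlow : ∀ k, 1/2 + (1/2 : ℝ) ^ (k+1) ≤ ‖∏ i ∈ range k, H (J + i) z‖ := by
          intro k
          induction k with
          | zero => simp only [Finset.range_zero, Finset.prod_empty, norm_one]; norm_num
          | succ k ih =>
            rw [Finset.prod_range_succ, norm_mul]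
            have h1 : ‖H (J + k) z - 1‖ ≤ (1/2) ^ (k+2) := by
              have e1 := hHs (J+k) z hzc
              have e2 := zt_rh (J+k)
              have e3 : (1/2 : ℝ) ^ (J+k) = (1/2) ^ J * (1/2) ^ k := pow_add _ _ _
              have e4 : (0:ℝ) < (1/2) ^ k := by positivity
              have e5 : (1/2 : ℝ) ^ J * (1/2) ^ k ≤ a / 40 * (1/2) ^ k := mul_le_mul_of_nonneg_right hJ.le e4.le
              have e6 : a * ‖H (J + k) z - 1‖ ≤ a * ((1/2) ^ (k+2)) := by
                calc a * ‖H (J + k) z - 1‖ ≤ 4 * (1 - zt (rh (J+k))) + 2 * (1/2) ^ (J+k) := e1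
                  _ ≤ 10 * (1/2) ^ (J+k) := by linarith
                  _ ≤ 10 * (a / 40 * (1/2) ^ k) := by rw [e3]; linarith
                  _ = a * ((1/2) ^ (k+2)) := by rw [pow_add]; ring
              exact le_of_mul_le_mul_left e6 ha
            have h2 : 1 - (1/2 : ℝ) ^ (k+2) ≤ ‖H (J+k) z‖ := by
              have := norm_sub_norm_le (1:ℂ) (1 - H (J+k) z)
              rw [sub_sub_cancel, norm_one, ← norm_neg (1 - H (J+k) z), neg_sub] at this
              linarith
            have h4 : (1/2 : ℝ) ^ (k+1) = 2 * (1/2) ^ (k+2) := by ring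
            have h5 : (1/2 : ℝ) ^ (k+1+1) = (1/2) ^ (k+2) := by ring
            have h6 : 0 < (1/2 : ℝ) ^ (k+2) := by positivity
            have h7 : (1/2 : ℝ) ^ (k+2) ≤ 1/4 := by
              calc (1/2 : ℝ) ^ (k+2) ≤ (1/2) ^ 2 := pow_le_pow_of_le_one (by norm_num) (by norm_num) (by omega)
                _ = 1/4 := by norm_num
            set y := (1/2 : ℝ) ^ (k+2) with hy
            rw [h5]
            rw [h4] at ih
            calc 1/2 + y ≤ (1/2 + 2 * y) * (1 - y) := by nlinarith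
              _ ≤ ‖∏ i ∈ range k, H (J + i) z‖ * ‖H (J+k) z‖ := mul_le_mul ih h2 (by linarith) (norm_nonneg _)
        have h1 := (hTlim z hzc).norm
        have h2 : a / 2 ≤ ‖T z‖ := by
          apply ge_of_tendsto' h1
          intro k
          rw [norm_mul]
          have := hlow k
          have h6 : 0 < (1/2 : ℝ) ^ (k+1) := by positivity
          calc a / 2 = a * (1/2) := by ring
            _ ≤ a * ‖∏ i ∈ range k, H (J + i) z‖ := mul_le_mul_of_nonneg_left (by linarith) ha.le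
        intro h
        rw [h, norm_zero] at h2
        linarith

end Pool.Agent.H822B
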