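import Pool.Agent.H822B.Arc3
set_option autoImplicit false
namespace Pool.Agent.H822B
open Finset Filter Topology Metric
open Pool.Agent.Helper233.BA hiding nn good_nn s_pos s_succ s_le s_tendsto ancestor KK KK_closed_level
  KK_closed norm_node_bounds KK_sphere KK_compact branch not_Z PP AA AA_succ AA_le AA_diff PP_contOn PP_diffOn
  AA_contOn AA_diffOn GG GG_contOn GG_tendsto GG_diffOn GG_zero GG_ne

open scoped Classical in
noncomputable def F1 (ρ R : ℝ) (n : ℕ) : Finset E :=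
  ((range n).filter (fun k => (1:ℝ) / 2 ≤ (om n ^ k).re)).image (pole ρ R n)

theorem mem_F1 (ρ R : ℝ) (n : ℕ) (P : E) : P ∈ F1 ρ R n ↔ ∃ k, k < n ∧ (1:ℝ) / 2 ≤ (om n ^ k).re ∧ pole ρ R n k = P := by
  classical
  simp [F1, and_assoc]

noncomputable def S1 (ρ R : ℝ) (n : ℕ) : St := ⟨F1 ρ R n, sg ρ R, fun z => ‖bb ρ z * ps ρ R n z‖⟩

theorem inv_S1 (ρ R : ℝ) (hρ : 1 < ρ) (hR : 1 < R) (n : ℕ) (hn : 0 < n) : Inv (S1 ρ R n) := by
  refine ⟨sg_pos ρ R hρ hR, ?_, ?_, ?_, ?_, ?_⟩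
  · exact ⟨pole ρ R n 0, (mem_F1 _ _ _ _).mpr ⟨0, hn, by norm_num, rfl⟩⟩
  · intro P hP
    obtain ⟨k, -, -, rfl⟩ := (mem_F1 _ _ _ _).mp hP
    exact norm_pole ρ R hρ hR n k
  · exact ((bb_diffOn ρ hρ).continuousOn.mul (ps_diffOn ρ R n hρ).continuousOn).norm
  · intro z; exact norm_nonneg _
  · intro P hP z hz h
    obtain ⟨k, -, -, rfl⟩ := (mem_F1 _ _ _ _).mp hP
    have := ps_zero ρ R hρ hR n hn k z (by simpa using hz) h
    simp only [S1, this, mul_zero, norm_zero]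

theorem re_F1 (ρ R : ℝ) (hρ : 1 < ρ) (hR : 1 < R) (n : ℕ) (P : E) (hP : P ∈ F1 ρ R n) : 1 / 3 ≤ (P 0).re := by
  obtain ⟨k, -, hk, rfl⟩ := (mem_F1 _ _ _ _).mp hP
  have hz := zt_mul ρ hρ
  have hz0 := zt_pos ρ hρ
  obtain ⟨b1, b2, b3⟩ := inv_facts ρ hρ
  have e : (pole ρ R n k 0).re = √(zt ρ / 2) * (ρ * R) * (om n ^ k).re := by
    have : pole ρ R n k 0 = ((√(zt ρ / 2) * (ρ * R) : ℝ) : ℂ) * om n ^ k := by
      simp only [pole, zc, PiLp.toLp_apply, Matrix.cons_val_zero]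
      push_cast; ring
    rw [this, Complex.re_ofReal_mul]
  rw [e]
  have h1 : 2 / 3 ≤ √(zt ρ / 2) * ρ := by
    apply le_of_sq_le_sq _ (by positivity)
    rw [mul_pow, Real.sq_sqrt (by positivity)]
    have h2 : (ρ⁻¹) ^ 2 < 1 := pow_lt_one₀ b1.le b2 two_ne_zero
    have h3 : 1 < ρ ^ 2 := one_lt_pow₀ hρ two_ne_zero
    nlinarith
  have h2 : 2 / 3 ≤ √(zt ρ / 2) * (ρ * R) := by
    have : 0 ≤ √(zt ρ / 2) * ρ := by positivity
    calc 2 / 3 ≤ √(zt ρ / 2) * ρ := h1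
      _ ≤ √(zt ρ / 2) * ρ * R := le_mul_of_one_le_right this hR.le
      _ = _ := by ring
  calc (1:ℝ) / 3 = 2 / 3 * (1 / 2) := by norm_num
    _ ≤ _ := mul_le_mul h2 hk (by norm_num) (by positivity)

/-- The seed attached to an annulus. -/
noncomputable def sd (ρ R : ℝ) (hρ : 1 < ρ) (hR : 1 < R) (hC : Cond ρ R) (n : ℕ) (hn : 0 < n) (m0 : ℕ) : Seed where
  m0 := m0
  S0 := S1 ρ R n
  inv := inv_S1 ρ R hρ hR n hn
  s_le := hC.1.trans (by norm_num)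

theorem KK_half (ρ R : ℝ) (hρ : 1 < ρ) (hR : 1 < R) (hC : Cond ρ R) (n : ℕ) (hn : 0 < n) (m0 : ℕ) (x : E)
    (hx : x ∈ KK (sd ρ R hρ hR hC n hn m0)) : 0 ≤ (x 0).re := by
  obtain ⟨Q, hQ, hd⟩ := hx 0
  have h1 : 1 / 3 ≤ (Q 0).re := re_F1 ρ R hρ hR n Q hQ
  have h2 : ‖x - Q‖ ≤ 3 * sg ρ R := hd
  have h3 := hC.1
  have h4 : ‖(x - Q) 0‖ ≤ ‖x - Q‖ := PiLp.norm_apply_le (x - Q) 0
  have h5 := (abs_le.mp (Complex.abs_re_le_norm ((x - Q) 0))).1
  have h6 : ((x - Q) 0).re = (x 0).re - (Q 0).re := by simp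
  rw [h6] at h5
  linarith

theorem zc_diffAt (ρ : ℝ) (l : ℂ) (hl : l ≠ 0) : DifferentiableAt ℂ (zc ρ) l := by
  rw [differentiableAt_euclidean]
  intro i
  fin_cases i
  · simp only [zc]
    have : DifferentiableAt ℂ (fun l : ℂ => ((√(zt ρ / 2) : ℝ) : ℂ) * l) l := by fun_prop
    exact this
  · simp only [zc]
    have : DifferentiableAt ℂ (fun l : ℂ => ((√(zt ρ / 2) : ℝ) : ℂ) * l⁻¹) l :=
      (differentiableAt_inv hl).const_mul _
    exact this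

/-- The restriction of a ball algebra function to the annulus. -/
theorem G_diffOn (ρ : ℝ) (hρ : 1 < ρ) (f : E → ℂ) (hd : DifferentiableOn ℂ f (ball 0 1)) :
    DifferentiableOn ℂ (fun l : ℂ => f (zc ρ l)) {l : ℂ | ρ⁻¹ < ‖l‖ ∧ ‖l‖ < ρ} := by
  intro l hl
  have hl0 : l ≠ 0 := by
    intro h
    have := hl.1
    rw [h, norm_zero] at this
    have := (inv_facts ρ hρ).1
    linarith
  have hb : zc ρ l ∈ ball (0:E) 1 := by
    rw [mem_ball_zero_iff]; exact norm_zc_lt ρ hρ l hl.1 hl.2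
  exact ((hd.differentiableAt (isOpen_ball.mem_nhds hb)).comp l (zc_diffAt ρ l hl0)).differentiableWithinAt

theorem arc_small (ρ R : ℝ) (hρ : 1 < ρ) (hR : 1 < R) (hC : Cond ρ R) (n : ℕ) (hn : 0 < n) (m0 : ℕ)
    (hRn : R = RR m0 n) (hn2 : 2 * Real.pi / n ≤ 1 / 4) (f : E → ℂ) (hc : ContinuousOn f (closedBall (0:E) 1))
    (hd : DifferentiableOn ℂ f (ball 0 1)) (hb : ∀ z ∈ ball (0:E) 1, ‖f z‖ ≤ 1)
    (h0 : ∀ x ∈ KK (sd ρ R hρ hR hC n hn m0), f x = 0) (θ : ℝ) (hθ : |θ| ≤ 1 / 2) :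
    ‖f (zc ρ (((ρ * R⁻¹ : ℝ) : ℂ) * Complex.exp (θ * Complex.I)))‖ ≤ 9 * tt m0 := by
  obtain ⟨a1, a2, a3⟩ := inv_facts R hR
  obtain ⟨b1, b2, b3⟩ := inv_facts ρ hρ
  have hn' : (0:ℝ) < n := by exact_mod_cast hn
  have ht := tt_pos m0
  have ht1 : tt m0 < 1 := by
    unfold tt
    exact pow_lt_one₀ (by norm_num) (by norm_num) (by omega)
  have hpi := Real.pi_pos
  set u : ℂ := Complex.exp (θ * Complex.I) with hu
  have hun : ‖u‖ = 1 := Complex.norm_exp_ofReal_mul_I θ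
  obtain ⟨k, hk, hkd⟩ := nearest_root n hn 1 one_pos u hun
  have hkd' : ‖om n ^ k - u‖ ≤ 2 * Real.pi / n := by
    have := hkd
    rw [Complex.ofReal_one, one_mul, one_mul] at this
    exact this
  have hre : 1 / 2 ≤ (om n ^ k).re := by
    have h1 := (abs_le.mp (Complex.abs_re_le_norm (om n ^ k - u))).1
    have h2 : u.re = Real.cos θ := Complex.exp_ofReal_mul_I_re θ
    have h3 := Real.one_sub_sq_div_two_le_cos (x := θ)
    have h4 : θ ^ 2 ≤ (1/2) ^ 2 := by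
      rw [← sq_abs]; exact pow_le_pow_left₀ (abs_nonneg _) hθ 2
    rw [Complex.sub_re, h2] at h1
    linarith
  set D := sd ρ R hρ hR hC n hn m0 with hD
  have hP : pole ρ R n k ∈ D.S0.F := (mem_F1 _ _ _ _).mpr ⟨k, hk, hre, rfl⟩
  have hpR : 0 < ρ * R⁻¹ := by positivity
  have hRρ : ρ * R⁻¹ < ρ := by nlinarith
  have hlow : ρ⁻¹ < ρ * R⁻¹ := by
    have := hC.2.2.2
    nlinarith
  have hq1 : ‖qq ρ R n k‖ < 1 := by
    apply norm_zc_lt ρ hρ
    · rw [norm_om_pow _ hpR]; exact hlow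
    · rw [norm_om_pow _ hpR]; exact hRρ
  have hs := small_start D f hc hd hb h0 (pole ρ R n k) hP (qq ρ R n k) hq1 (inner_pole_qq ρ R hρ hR n k)
    (xf_qq ρ R hρ hR hC n k)
  have hs' : ‖f (qq ρ R n k)‖ ≤ 6 * tt m0 := hs
  set G : ℂ → ℂ := fun l => f (zc ρ l) with hG
  set l0 : ℂ := ((ρ * R⁻¹ : ℝ) : ℂ) * u with hl0
  set lk : ℂ := ((ρ * R⁻¹ : ℝ) : ℂ) * om n ^ k with hlk
  have hl0n : ‖l0‖ = ρ * R⁻¹ := by
    rw [hl0, norm_mul, hun, mul_one, Complex.norm_real, Real.norm_eq_abs, abs_of_pos hpR]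
  have hrad : 0 < ρ - ρ * R⁻¹ := by linarith
  have hsub : ball l0 (ρ - ρ * R⁻¹) ⊆ {l : ℂ | ρ⁻¹ < ‖l‖ ∧ ‖l‖ < ρ} := by
    intro l hl
    rw [mem_ball_iff_norm] at hl
    have h1 := norm_sub_norm_le l l0
    have h2 := norm_sub_norm_le l0 l
    rw [norm_sub_rev] at h2
    have h3 := hC.2.2.2
    constructor
    · nlinarith
    · linarith
  have hdist : ‖lk - l0‖ ≤ tt m0 * (ρ - ρ * R⁻¹) := by
    rw [hlk, hl0, ← mul_sub, norm_mul, Complex.norm_real, Real.norm_eq_abs, abs_of_pos hpR]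
    have e1 : ρ - ρ * R⁻¹ = (ρ * R⁻¹) * ((2 * Real.pi / tt m0) / n) := by
      have h1 : R = 1 + (2 * Real.pi / tt m0) / n := hRn
      have h2 : (2 * Real.pi / tt m0) / n = R - 1 := by linarith
      rw [h2]
      linear_combination (-ρ) * a3
    rw [e1]
    calc ρ * R⁻¹ * ‖om n ^ k - u‖ ≤ ρ * R⁻¹ * (2 * Real.pi / n) := mul_le_mul_of_nonneg_left hkd' hpR.le
      _ = _ := by field_simp
  have hl := lip G l0 (ρ - ρ * R⁻¹) ((G_diffOn ρ hρ f hd).mono hsub)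
    (fun l hl => hb _ (by rw [mem_ball_zero_iff]; exact norm_zc_lt ρ hρ l (hsub hl).1 (hsub hl).2))
    (tt m0) ht1 hrad lk hdist
  have hGk : ‖G lk‖ ≤ 6 * tt m0 := hs'
  calc ‖G l0‖ = ‖G lk - (G lk - G l0)‖ := by congr 1; ring
    _ ≤ ‖G lk‖ + ‖G lk - G l0‖ := norm_sub_le _ _
    _ ≤ 9 * tt m0 := by linarith

/-- The basic building block. -/
theorem piece (ρ : ℝ) (hρ : 1 < ρ) (e η : ℝ) (he : 0 < e) (hη : 0 < η) :
    ∃ K : Set E, K ⊆ sphere (0:E) 1 ∧ (∀ x ∈ K, 0 ≤ (x 0).re) ∧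
    (∀ f : E → ℂ, ContinuousOn f (closedBall (0:E) 1) → DifferentiableOn ℂ f (ball (0:E) 1) →
      (∀ z ∈ ball (0:E) 1, ‖f z‖ ≤ 1) → (∀ x ∈ K, f x = 0) → ‖f (zc ρ (-1))‖ ≤ η) ∧
    (∃ H : E → ℂ, ContinuousOn H (closedBall (0:E) 1) ∧ DifferentiableOn ℂ H (ball (0:E) 1) ∧
      (∀ x ∈ K, H x = 0) ∧ (∀ z ∈ closedBall (0:E) 1, ‖H z‖ ≤ 1 + e) ∧
      (∀ z ∈ closedBall (0:E) 1, ‖1 - xx z‖ * ‖H z - 1‖ ≤ 4 * (1 - zt ρ) + 2 * e)) ∧
    (∀ z ∈ ball (0:E) 1, ∃ G : E → ℂ, ContinuousOn G (closedBall (0:E) 1) ∧ DifferentiableOn ℂ G (ball (0:E) 1) ∧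
      (∀ x ∈ K, G x = 0) ∧ G z ≠ 0) := by
  have hlogρ : 0 < Real.log ρ := Real.log_pos hρ
  obtain ⟨ε, hε, hprop⟩ := prop_small (Real.log ρ) (1/2) η hlogρ (by norm_num) hη
  obtain ⟨m0, hm1, hm2⟩ : ∃ m0 : ℕ, 9 * tt m0 ≤ ε ∧ 2 * (1/2 : ℝ) ^ m0 ≤ e / 2 := by
    have t1 : Tendsto (fun m : ℕ => (1/2 : ℝ) ^ m) atTop (𝓝 0) :=
      tendsto_pow_atTop_nhds_zero_of_lt_one (by norm_num) (by norm_num)
    have t2 := t1.eventually_le_const (show 0 < min (ε / 9) (e / 4) by positivity)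
    obtain ⟨m0, hm0⟩ := t2.exists
    refine ⟨m0, ?_, ?_⟩
    · have h1 : tt m0 ≤ (1/2 : ℝ) ^ m0 := by
        unfold tt
        exact pow_le_pow_of_le_one (by norm_num) (by norm_num) (by omega)
      have := min_le_left (ε / 9) (e / 4)
      linarith
    · have := min_le_right (ε / 9) (e / 4)
      linarith
  have hRt : Tendsto (fun n : ℕ => RR m0 n) atTop (𝓝 1) := by
    have : Tendsto (fun n : ℕ => 1 + cc m0 / n) atTop (𝓝 (1 + 0)) :=
      tendsto_const_nhds.add (tendsto_const_div_atTop_nhds_zero_nat (cc m0))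
    rw [add_zero] at this
    exact this
  have hn2 : ∀ᶠ n : ℕ in atTop, 2 * Real.pi / n ≤ 1 / 4 := by
    exact (tendsto_const_div_atTop_nhds_zero_nat (2 * Real.pi)).eventually_le_const (by norm_num)
  obtain ⟨n, ⟨⟨hC, hcv⟩, hn2⟩, hn⟩ := (((hRt.eventually (cond_near ρ hρ)).and
    (ps_conv ρ hρ (cc m0) (cc_pos m0) (e / 2) (by positivity))).and hn2).and (eventually_gt_atTop 0) |>.exists
  set R := RR m0 n with hRdef
  have hR : 1 < R := RR_gt m0 n hn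
  obtain ⟨a1, a2, a3⟩ := inv_facts R hR
  set D := sd ρ R hρ hR hC n hn m0 with hD
  have hK0 : ∀ z ∈ ball (0:E) 1, z ∉ KK D := by
    intro z hz hzK
    have := KK_sphere D hzK
    rw [mem_sphere_zero_iff_norm] at this
    rw [mem_ball_zero_iff] at hz
    linarith
  refine ⟨KK D, KK_sphere D, fun x hx => KK_half ρ R hρ hR hC n hn m0 x hx, ?_, ?_, ?_⟩
  · intro f hc hd hb h0
    have hlogR : 0 < Real.log R := Real.log_pos hR
    have hlog2 : 2 * Real.log R ≤ Real.log ρ := by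
      have := Real.log_le_log (by positivity : 0 < R ^ 2) hC.2.2.1
      rwa [Real.log_pow] at this
    have hexp : ∀ τ : ℂ, |τ.re| < Real.log ρ → ρ⁻¹ < ‖Complex.exp τ‖ ∧ ‖Complex.exp τ‖ < ρ := by
      intro τ hτ
      rw [abs_lt] at hτ
      rw [Complex.norm_exp]
      constructor
      · have h1 : ρ⁻¹ = Real.exp (-Real.log ρ) := by rw [Real.exp_neg, Real.exp_log (by linarith)]
        rw [h1]; exact Real.exp_lt_exp.mpr hτ.1
      · calc Real.exp τ.re < Real.exp (Real.log ρ) := Real.exp_lt_exp.mpr hτ.2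
          _ = ρ := Real.exp_log (by linarith)
    have hg := hprop (Real.log ρ - Real.log R) (by linarith) (by linarith) (fun τ => f (zc ρ (Complex.exp τ)))
      (by
        apply DifferentiableOn.comp (g := fun l => f (zc ρ l)) (G_diffOn ρ hρ f hd)
          Complex.differentiable_exp.differentiableOn
        intro τ hτ
        exact hexp τ hτ)
      (by
        intro τ hτ
        exact hb _ (by rw [mem_ball_zero_iff]; exact norm_zc_lt ρ hρ _ (hexp τ hτ).1 (hexp τ hτ).2))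
      (by
        intro θ hθ
        refine le_trans ?_ hm1
        have h1 := arc_small ρ R hρ hR hC n hn m0 hRdef hn2 f hc hd hb h0 θ hθ
        have h2 : Complex.exp (((Real.log ρ - Real.log R : ℝ) : ℂ) + θ * Complex.I) =
            ((ρ * R⁻¹ : ℝ) : ℂ) * Complex.exp (θ * Complex.I) := by
          rw [Complex.exp_add, ← Complex.ofReal_exp, Real.exp_sub, Real.exp_log (by linarith), Real.exp_log (by linarith)]
          rfl
        push_cast at h2 h1 ⊢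
        rw [h2]
        exact h1)
    simp only [Complex.exp_pi_mul_I] at hg
    exact hg
  · refine ⟨fun z => bb ρ z * ps ρ R n z * GG D 0 z, ?_, ?_, ?_, ?_, ?_⟩
    · exact ((bb_diffOn ρ hρ).continuousOn.mul (ps_diffOn ρ R n hρ).continuousOn).mul (GG_contOn D 0)
    · exact (((bb_diffOn ρ hρ).mono ball_subset_closedBall).fun_mul
        ((ps_diffOn ρ R n hρ).mono ball_subset_closedBall)).fun_mul (GG_diffOn D 0)
    · intro x hx
      beta_reduce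
      rw [GG_zero D 0 x hx, mul_zero]
    · intro z hz
      have hz' : ‖z‖ ≤ 1 := by simpa using hz
      have h1 : ‖bb ρ z * ps ρ R n z‖ * ‖GG D 0 z - 1‖ ≤ 2 * (1/2) ^ m0 := h0_GG_sub D z hz
      have h2 := hcv z hz
      have h3 : ‖bb ρ z * (ps ρ R n z - 1)‖ ≤ e / 2 := by rw [norm_mul]; exact h2
      have h4 : ‖(bb ρ z * ps ρ R n z) * (GG D 0 z - 1)‖ ≤ e / 2 := by rw [norm_mul]; exact h1.trans hm2
      have h5 : bb ρ z * ps ρ R n z * GG D 0 z = bb ρ z + bb ρ z * (ps ρ R n z - 1) +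
        (bb ρ z * ps ρ R n z) * (GG D 0 z - 1) := by ring
      beta_reduce
      rw [h5]
      refine (norm_add₃_le).trans ?_
      have := bb_le ρ hρ z hz'
      linarith
    · intro z hz
      have hz' : ‖z‖ ≤ 1 := by simpa using hz
      have h1 : ‖bb ρ z * ps ρ R n z‖ * ‖GG D 0 z - 1‖ ≤ 2 * (1/2) ^ m0 := h0_GG_sub D z hz
      have h2 := hcv z hz
      have h3 : ‖bb ρ z * (ps ρ R n z - 1)‖ ≤ e / 2 := by rw [norm_mul]; exact h2
      have h4 : ‖(bb ρ z * ps ρ R n z) * (GG D 0 z - 1)‖ ≤ e / 2 := by rw [norm_mul]; exact h1.trans hm2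
      have h5 : bb ρ z * ps ρ R n z * GG D 0 z - 1 = (bb ρ z - 1) + bb ρ z * (ps ρ R n z - 1) +
        (bb ρ z * ps ρ R n z) * (GG D 0 z - 1) := by ring
      have h6 : ‖1 - xx z‖ ≤ 2 := by
        refine (norm_sub_le _ _).trans ?_
        rw [norm_one]; linarith [xx_le z hz']
      beta_reduce
      rw [h5]
      calc ‖1 - xx z‖ * ‖(bb ρ z - 1) + bb ρ z * (ps ρ R n z - 1) + (bb ρ z * ps ρ R n z) * (GG D 0 z - 1)‖
          ≤ ‖1 - xx z‖ * (‖bb ρ z - 1‖ + e / 2 + e / 2) := by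
            apply mul_le_mul_of_nonneg_left _ (norm_nonneg _)
            refine (norm_add₃_le).trans ?_
            linarith
        _ = ‖1 - xx z‖ * ‖bb ρ z - 1‖ + ‖1 - xx z‖ * e := by ring
        _ ≤ 4 * (1 - zt ρ) + 2 * e := add_le_add (bb_sub ρ hρ z hz') (mul_le_mul_of_nonneg_right h6 he.le)
  · intro z hz
    obtain ⟨M, hM⟩ := GG_ne D z (ball_subset_closedBall hz) (hK0 z hz)
    exact ⟨GG D M, GG_contOn D M, GG_diffOn D M, fun x hx => GG_zero D M x hx, hM⟩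

end Pool.Agent.H822B
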