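import Pool.Agent.H822B.Tree
set_option autoImplicit false
namespace Pool.Agent.H822B
open Finset Filter Topology Metric
open Pool.Agent.Helper233.BA hiding nn good_nn s_pos s_succ s_le s_tendsto ancestor KK KK_closed_level
  KK_closed norm_node_bounds KK_sphere KK_compact branch not_Z PP AA AA_succ AA_le AA_diff PP_contOn PP_diffOn
  AA_contOn AA_diffOn GG GG_contOn GG_tendsto GG_diffOn GG_zero GG_ne

/-- Lipschitz estimate for bounded holomorphic functions. -/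
theorem lip (g : ℂ → ℂ) (c : ℂ) (ρ : ℝ) (hg : DifferentiableOn ℂ g (ball c ρ))
    (hb : ∀ z ∈ ball c ρ, ‖g z‖ ≤ 1) (t : ℝ) (ht : t < 1) (hρ : 0 < ρ) (z : ℂ) (hz : ‖z - c‖ ≤ t * ρ) :
    ‖g z - g c‖ ≤ 3 * t := by
  have hzb : z ∈ ball c ρ := by
    rw [mem_ball_iff_norm]
    exact lt_of_le_of_lt hz (by nlinarith)
  have hmaps : Set.MapsTo g (ball c ρ) (closedBall (g c) 3) := by
    intro w hw
    rw [mem_closedBall_iff_norm]
    calc ‖g w - g c‖ ≤ ‖g w‖ + ‖g c‖ := norm_sub_le _ _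
      _ ≤ 1 + 1 := add_le_add (hb w hw) (hb c (mem_ball_self hρ))
      _ ≤ 3 := by norm_num
  have h := Complex.dist_le_div_mul_dist_of_mapsTo_ball hg hmaps hzb
  rw [dist_eq_norm, dist_eq_norm] at h
  refine h.trans ?_
  calc 3 / ρ * ‖z - c‖ ≤ 3 / ρ * (t * ρ) := mul_le_mul_of_nonneg_left hz (by positivity)
    _ = 3 * t := by field_simp

theorem child_line (D : Seed) (m k : ℕ) (hk : k < nn D m) (P : E) (hP : P ∈ (st D m).F) :
    ∃ P' ∈ (st D (m+1)).F, inner ℂ P' (node (st D m).s P ((((RK D m)⁻¹ : ℝ) : ℂ) * om (nn D m) ^ k)) = 1 ∧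
      ‖xf (st D (m+1)).s P' (node (st D m).s P ((((RK D m)⁻¹ : ℝ) : ℂ) * om (nn D m) ^ k))‖ ≤ 1 / 2 := by
  set s := (st D m).s with hs_def
  have hs : 0 < s := s_pos D m
  have hPn : ‖P‖ ^ 2 = 1 + s ^ 2 := (inv_st D m).norm P hP
  set R := RK D m with hR_def
  have hR2 : R ^ 2 - 1 ≤ 1 / 16 := RK_sq D m
  have hR : 1 < R := RK_gt D m
  have hRpos : 0 < R := by linarith
  set P' := node s P ((R:ℂ) * om (nn D m) ^ k) with hP'
  set q' := node s P (((R⁻¹ : ℝ) : ℂ) * om (nn D m) ^ k) with hq'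
  have hwn : ‖((R⁻¹ : ℝ) : ℂ) * om (nn D m) ^ k‖ = R⁻¹ := norm_w _ _ (by positivity) k
  have hP'F : P' ∈ (st D (m+1)).F := (mem_children _ _ _ _ _).mpr ⟨P, hP, k, hk, rfl⟩
  have hP'n := (inv_st D (m+1)).norm P' hP'F
  have hs' : (st D (m+1)).s = sig R s := rfl
  have hs'pos := s_pos D (m+1)
  have hr1 : R⁻¹ < 1 := inv_lt_one_of_one_lt₀ hR
  have hin : inner ℂ P' q' = 1 := by
    rw [hP', inner_node, hq', inner_P_node s P hPn, inner_J_node s P hPn]
    have h3 : (starRingEnd ℂ) (om (nn D m) ^ k) * om (nn D m) ^ k = 1 := by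
      rw [mul_comm, Complex.mul_conj, Complex.normSq_eq_norm_sq, norm_pow, norm_om]; simp
    have h4 : (R:ℂ) * ((R⁻¹ : ℝ) : ℂ) = 1 := by
      rw [← Complex.ofReal_mul, mul_inv_cancel₀ hRpos.ne']; simp
    rw [map_mul, Complex.conj_ofReal, inv_mul_eq_iff_eq_mul₀ (one_add_sq_ne s)]
    push_cast at h4 ⊢
    linear_combination (s:ℂ) ^ 2 * (starRingEnd ℂ) (om (nn D m) ^ k) * om (nn D m) ^ k * h4 + (s:ℂ) ^ 2 * h3
  refine ⟨P', hP'F, hin, ?_⟩
  have h1 := node_xf (st D (m+1)).s hs'pos P' hP'n q' hin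
  have h2 := norm_node_sq (st D (m+1)).s P' hP'n (xf (st D (m+1)).s P' q')
  rw [h1, hq', norm_node_sq s P hPn, hwn, hs', sig_sq R s hR] at h2
  set X := ‖xf (sig R s) P' (node s P (((R⁻¹ : ℝ) : ℂ) * om (nn D m) ^ k))‖ with hX
  have h3 : X ^ 2 = (1 - (R⁻¹) ^ 2) / (1 + s ^ 2) := by
    have hR21 : R ^ 2 - 1 ≠ 0 := by nlinarith
    have hs0 : s ≠ 0 := hs.ne'
    have e1 : 1 + s ^ 2 * ((R ^ 2 - 1) / (1 + s ^ 2)) ≠ 0 := by
      have : 0 ≤ (R ^ 2 - 1) / (1 + s ^ 2) := by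
        apply div_nonneg
        · nlinarith
        · positivity
      positivity
    have e2 : (1 + s ^ 2) ≠ 0 := by positivity
    have h4 : X ^ 2 * (s ^ 2 * ((R ^ 2 - 1) / (1 + s ^ 2))) =
        (1 + R⁻¹ ^ 2 * s ^ 2) / (1 + s ^ 2) * (1 + s ^ 2 * ((R ^ 2 - 1) / (1 + s ^ 2))) - 1 := by
      rw [eq_div_iff e1] at h2
      linarith
    have h5 : s ^ 2 * ((R ^ 2 - 1) / (1 + s ^ 2)) ≠ 0 := by positivity
    apply mul_right_cancel₀ h5
    rw [h4]
    field_simp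
    ring
  have h4 : X ^ 2 ≤ (1/2) ^ 2 := by
    rw [h3, div_le_iff₀ (by positivity)]
    have h5 : 1 - (R⁻¹) ^ 2 ≤ R ^ 2 - 1 := by
      have h6 : R * R⁻¹ = 1 := mul_inv_cancel₀ hRpos.ne'
      have h7 : (R - R⁻¹) ^ 2 = R ^ 2 - 2 * (R * R⁻¹) + (R⁻¹) ^ 2 := by ring
      have h8 := sq_nonneg (R - R⁻¹)
      rw [h7, h6] at h8
      linarith
    nlinarith [sq_nonneg s]
  exact le_of_sq_le_sq h4 (by norm_num)

theorem small_step (D : Seed) (f : E → ℂ) (hd : DifferentiableOn ℂ f (ball 0 1))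
    (hC : ∀ z ∈ ball (0:E) 1, ‖f z‖ ≤ 1) (m : ℕ) (a : ℝ)
    (h : ∀ P ∈ (st D (m+1)).F, ∀ q : E, ‖q‖ < 1 → inner ℂ P q = 1 → ‖xf (st D (m+1)).s P q‖ ≤ 1 / 2 → ‖f q‖ ≤ a) :
    ∀ P ∈ (st D m).F, ∀ q : E, ‖q‖ < 1 → inner ℂ P q = 1 → ‖xf (st D m).s P q‖ ≤ 1 / 2 →
      ‖f q‖ ≤ a + 3 * tt (D.m0 + m) := by
  intro P hP q hq hPq hx
  set s := (st D m).s with hs_def
  have hs : 0 < s := s_pos D m
  have hPn : ‖P‖ ^ 2 = 1 + s ^ 2 := (inv_st D m).norm P hP
  set R := RK D m with hR_def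
  have hR2 : R ^ 2 - 1 ≤ 1 / 16 := RK_sq D m
  have hR : 1 < R := RK_gt D m
  have hRpos : 0 < R := by linarith
  have hn : 0 < nn D m := (good_nn D m).1
  have hn' : (0:ℝ) < nn D m := by exact_mod_cast hn
  have hR4 : R ≤ 2 := by nlinarith
  set g : ℂ → ℂ := fun w => f (node s P w) with hg
  have hmem : ∀ w ∈ ball (0:ℂ) 1, node s P w ∈ ball (0:E) 1 := by
    intro w hw
    rw [mem_ball_zero_iff] at hw ⊢
    exact norm_node_lt s hs P hPn w hw
  have hgd : DifferentiableOn ℂ g (ball 0 1) :=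
    DifferentiableOn.comp (g := f) hd (node_diff s P).differentiableOn hmem
  have htt : tt (D.m0 + m) < 1 := by
    unfold tt
    exact pow_lt_one₀ (by norm_num) (by norm_num) (by omega)
  have htpos := tt_pos (D.m0 + m)
  set t := tt (D.m0 + m) with ht_def
  set r := R⁻¹ with hr
  have hr0 : 0 < r := by positivity
  have hr1 : r < 1 := inv_lt_one_of_one_lt₀ hR
  have hζ : ‖xf s P q‖ ≤ r := by
    refine hx.trans ?_
    rw [hr, le_inv_comm₀ (by norm_num) hRpos]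
    norm_num; exact hR4
  have hsub : closedBall (0:ℂ) r ⊆ ball 0 1 := closedBall_subset_ball hr1
  have hcirc : ∀ ζ0 : ℂ, ‖ζ0‖ = r → ‖g ζ0‖ ≤ a + 3 * t := by
    intro ζ0 hζ0
    obtain ⟨k, hk, hkd⟩ := nearest_root (nn D m) hn r hr0 ζ0 hζ0
    obtain ⟨P', hP', hin, hxf⟩ := child_line D m k hk P hP
    have hwn : ‖((R⁻¹ : ℝ) : ℂ) * om (nn D m) ^ k‖ = R⁻¹ := norm_w _ _ (by positivity) k
    have h1 := h P' hP' _ (norm_node_lt s hs P hPn _ (by rw [hwn]; exact hr1)) hin hxf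
    set w : ℂ := (r : ℂ) * Complex.exp (2 * Real.pi * Complex.I / (nn D m)) ^ k with hw
    have h2 : ‖g w‖ ≤ a := h1
    have hsub2 : ball ζ0 (1 - r) ⊆ ball 0 1 := by
      intro z hz
      rw [mem_ball_iff_norm] at hz
      rw [mem_ball_zero_iff]
      calc ‖z‖ = ‖(z - ζ0) + ζ0‖ := by congr 1; ring
        _ ≤ ‖z - ζ0‖ + ‖ζ0‖ := norm_add_le _ _
        _ < 1 := by rw [hζ0]; linarith
    have hdist : ‖w - ζ0‖ ≤ t * (1 - r) := by
      refine hkd.trans ?_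
      have hRR : R = 1 + (2 * Real.pi / t) / (nn D m) := rfl
      have h1 : 1 - r = r * ((2 * Real.pi / t) / (nn D m)) := by
        have : r * R = 1 := inv_mul_cancel₀ hRpos.ne'
        rw [hRR] at this
        linarith
      rw [h1]
      have : t * (r * ((2 * Real.pi / t) / (nn D m))) = r * (2 * Real.pi / (nn D m)) := by field_simp
      rw [this]
    have h3 := lip g ζ0 (1 - r) (hgd.mono hsub2) (fun z hz => hC _ (hmem z (hsub2 hz))) t htt (by linarith) w hdist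
    calc ‖g ζ0‖ = ‖g w - (g w - g ζ0)‖ := by congr 1; ring
      _ ≤ ‖g w‖ + ‖g w - g ζ0‖ := norm_sub_le _ _
      _ ≤ a + 3 * t := add_le_add h2 h3
  have hmax := Complex.norm_le_of_forall_mem_frontier_norm_le (f := g) (U := ball (0:ℂ) r) (C := a + 3 * t) isBounded_ball
    ((hgd.mono (by rw [closure_ball _ hr0.ne']; exact hsub)).diffContOnCl)
    (fun z hz => hcirc z (by rw [frontier_ball _ hr0.ne'] at hz; simpa using hz))
    (z := xf s P q) (by rw [closure_ball _ hr0.ne']; simpa using hζ)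
  have hgq : g (xf s P q) = f q := by
    simp only [hg]
    rw [node_xf s hs P hPn q hPq]
  rw [hgq] at hmax
  exact hmax

theorem small_limit (D : Seed) (f : E → ℂ) (hc : ContinuousOn f (closedBall (0:E) 1)) (h0 : ∀ x ∈ KK D, f x = 0)
    (ε : ℝ) (hε : 0 < ε) : ∃ J, ∀ P ∈ (st D J).F, ∀ q : E, ‖q‖ < 1 → inner ℂ P q = 1 → ‖f q‖ ≤ ε := by
  by_contra hcon
  push Not at hcon
  choose P hPF q hq hPq hfq using hcon
  have hqb : ∀ m, q m ∈ ball (0:E) 1 := fun m => by simpa using hq m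
  obtain ⟨x, hx, φ, hφ, hlim⟩ := (isCompact_closedBall (0:E) 1).tendsto_subseq (fun m => ball_subset_closedBall (hqb m))
  have hfx : ε ≤ ‖f x‖ := by
    have h1 : Tendsto (fun m => f ((q ∘ φ) m)) atTop (𝓝 (f x)) := by
      have h2 : Tendsto (q ∘ φ) atTop (𝓝[closedBall (0:E) 1] x) := by
        rw [tendsto_nhdsWithin_iff]
        exact ⟨hlim, Filter.Eventually.of_forall (fun m => ball_subset_closedBall (hqb (φ m)))⟩
      exact (hc x hx).tendsto.comp h2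
    exact ge_of_tendsto' h1.norm (fun m => (hfq (φ m)).le)
  have hxK : x ∈ KK D := by
    intro m
    have h1 : ∀ᶠ i in atTop, (q ∘ φ) i ∈ {x : E | ∃ Q ∈ (st D m).F, ‖x - Q‖ ≤ 3 * (st D m).s} := by
      filter_upwards [eventually_ge_atTop m] with i hi
      have hmi : m ≤ φ i := hi.trans (hφ.id_le i)
      obtain ⟨k, hk⟩ := Nat.exists_eq_add_of_le hmi
      have h2 := ancestor D m k (P (φ i)) (by rw [← hk]; exact hPF (φ i))
      obtain ⟨Q, hQ, hd⟩ := h2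
      refine ⟨Q, hQ, ?_⟩
      have h3 := dist_line (st D (φ i)).s (P (φ i)) ((inv_st D (φ i)).norm _ (hPF (φ i))) (q (φ i)) (hPq (φ i))
      have h4 : ‖q (φ i) - P (φ i)‖ ≤ (st D (φ i)).s := by
        apply le_of_sq_le_sq _ (s_pos D _).le
        rw [h3]
        nlinarith [hq (φ i), norm_nonneg (q (φ i))]
      have h5 := s_pos D (φ i)
      rw [← hk] at hd
      calc ‖q (φ i) - Q‖ = ‖(q (φ i) - P (φ i)) + (P (φ i) - Q)‖ := by congr 1; abel
        _ ≤ ‖q (φ i) - P (φ i)‖ + ‖P (φ i) - Q‖ := norm_add_le _ _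
        _ ≤ _ := by linarith
    exact (KK_closed_level D m).mem_of_tendsto hlim h1
  rw [h0 x hxK, norm_zero] at hfx
  linarith

/-- A function of sup norm at most one, vanishing on the compact set, is small in the middle of every line of the
initial family. -/
theorem small_start (D : Seed) (f : E → ℂ) (hc : ContinuousOn f (closedBall (0:E) 1))
    (hd : DifferentiableOn ℂ f (ball 0 1)) (hC : ∀ z ∈ ball (0:E) 1, ‖f z‖ ≤ 1) (h0 : ∀ x ∈ KK D, f x = 0) :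
    ∀ P ∈ D.S0.F, ∀ q : E, ‖q‖ < 1 → inner ℂ P q = 1 → ‖xf D.S0.s P q‖ ≤ 1 / 2 → ‖f q‖ ≤ 6 * tt D.m0 := by
  intro P hP q hq hPq hx
  apply le_of_forall_pos_le_add
  intro ε hε
  obtain ⟨J, hJ⟩ := small_limit D f hc h0 ε hε
  have key : ∀ i, i ≤ J → ∀ P ∈ (st D (J-i)).F, ∀ q : E, ‖q‖ < 1 → inner ℂ P q = 1 → ‖xf (st D (J-i)).s P q‖ ≤ 1 / 2 →
      ‖f q‖ ≤ ε + (6 * tt (D.m0 + (J - i)) - 6 * tt (D.m0 + J)) := by
    intro i
    induction i with
    | zero => 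
      intro _ P hP q hq hPq _
      have := hJ P hP q hq hPq
      simpa using this
    | succ i ih =>
      intro hi
      have h1 : J - i = (J - (i+1)) + 1 := by omega
      have h2 := ih (by omega)
      rw [h1] at h2
      intro P hP q hq hPq hx
      have h3 := small_step D f hd hC (J - (i+1)) _ h2 P hP q hq hPq hx
      have h4 : tt (D.m0 + (J - (i+1) + 1)) = tt (D.m0 + (J - (i+1))) / 2 := by
        unfold tt
        rw [show D.m0 + (J - (i+1) + 1) + 4 = (D.m0 + (J - (i+1)) + 4) + 1 by ring, pow_succ]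
        ring
      rw [h4] at h3
      linarith
  have h := key J le_rfl
  rw [Nat.sub_self] at h
  have h1 := h P hP q hq hPq hx
  have h2 := tt_pos (D.m0 + J)
  rw [add_zero] at h1
  linarith

end Pool.Agent.H822B
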