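import Pool.Agent.Helper233.BA.Limit
set_option autoImplicit false
namespace Pool.Agent.H822B
open Finset Filter Topology Metric
open Pool.Agent.Helper233.BA hiding nn good_nn s_pos s_succ s_le s_tendsto ancestor KK KK_closed_level
  KK_closed norm_node_bounds KK_sphere KK_compact branch not_Z PP AA AA_succ AA_le AA_diff PP_contOn PP_diffOn
  AA_contOn AA_diffOn GG GG_contOn GG_tendsto GG_diffOn GG_zero GG_ne

/-- A seed of the tree construction: an initial level and an initial state. -/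
structure Seed where
  m0 : ℕ
  S0 : St
  inv : Inv S0
  s_le : S0.s ≤ 1

/-- The states of the construction started from the seed. -/
noncomputable def st (D : Seed) : ℕ → St
  | 0 => D.S0
  | k+1 => nextSt (D.m0 + k) (st D k)

theorem inv_st (D : Seed) (k : ℕ) : Inv (st D k) := by
  induction k with
  | zero => exact D.inv
  | succ k ih => exact inv_next _ _ ih

noncomputable def nn (D : Seed) (k : ℕ) : ℕ := pick (D.m0 + k) (st D k)

noncomputable def RK (D : Seed) (k : ℕ) : ℝ := RR (D.m0 + k) (nn D k)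

theorem good_nn (D : Seed) (k : ℕ) : Good (D.m0 + k) (st D k) (nn D k) := pick_good _ _ (inv_st D k)

theorem s_pos (D : Seed) (m : ℕ) : 0 < (st D m).s := (inv_st D m).s_pos

theorem RK_gt (D : Seed) (k : ℕ) : 1 < RK D k := RR_gt _ _ (good_nn D k).1

theorem RK_sq (D : Seed) (k : ℕ) : RK D k ^ 2 - 1 ≤ 1 / 16 := (good_nn D k).2.1

theorem s_succ (D : Seed) (m : ℕ) : (st D (m+1)).s ≤ (st D m).s / 4 :=
  sig_le _ _ (RK_gt D m) (s_pos D m) (RK_sq D m)

theorem s_le (D : Seed) (m : ℕ) : (st D m).s ≤ (1/4) ^ m := by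
  induction m with
  | zero => simpa [st] using D.s_le
  | succ m ih =>
    have := s_succ D m
    rw [pow_succ]
    linarith

theorem s_tendsto (D : Seed) : Tendsto (fun m => (st D m).s) atTop (𝓝 0) := by
  apply squeeze_zero (fun m => (s_pos D m).le) (s_le D)
  exact tendsto_pow_atTop_nhds_zero_of_lt_one (by norm_num) (by norm_num)

theorem ancestor (D : Seed) (j k : ℕ) : ∀ P ∈ (st D (j+k)).F,
    ∃ Q ∈ (st D j).F, ‖P - Q‖ ≤ 3 * (st D j).s - 3 * (st D (j+k)).s := by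
  induction k with
  | zero => intro P hP; exact ⟨P, hP, by simp⟩
  | succ k ih =>
    intro P hP
    have hP' : P ∈ children (nn D (j+k)) (RK D (j+k)) (st D (j+k)).s (st D (j+k)).F := hP
    obtain ⟨P1, hP1, i, hi, rfl⟩ := (mem_children _ _ _ _ _).mp hP'
    obtain ⟨Q, hQ, hd⟩ := ih P1 hP1
    refine ⟨Q, hQ, ?_⟩
    have h1 := dist_child (nn D (j+k)) (RK D (j+k)) (st D (j+k)).s (RK_gt _ _) (s_pos _ _) P1
      ((inv_st D (j+k)).norm P1 hP1) i
    have h2 : (st D (j+(k+1))).s = sig (RK D (j+k)) (st D (j+k)).s := rfl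
    have h3 : (st D (j+(k+1))).s ≤ (st D (j+k)).s / 4 := s_succ D (j+k)
    have h4 := s_pos D (j+k)
    set X := node (st D (j+k)).s P1 ((RK D (j+k) : ℂ) * om (nn D (j+k)) ^ i)
    calc ‖X - Q‖ = ‖(X - P1) + (P1 - Q)‖ := by congr 1; abel
      _ ≤ ‖X - P1‖ + ‖P1 - Q‖ := norm_add_le _ _
      _ ≤ _ := by rw [h2] at h3 ⊢; linarith

/-- The compact set. -/
def KK (D : Seed) : Set E := {x | ∀ m, ∃ Q ∈ (st D m).F, ‖x - Q‖ ≤ 3 * (st D m).s}

theorem KK_closed_level (D : Seed) (m : ℕ) : IsClosed {x : E | ∃ Q ∈ (st D m).F, ‖x - Q‖ ≤ 3 * (st D m).s} := by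
  have : {x : E | ∃ Q ∈ (st D m).F, ‖x - Q‖ ≤ 3 * (st D m).s} = ⋃ Q ∈ (st D m).F, closedBall Q (3 * (st D m).s) := by
    ext x; simp [dist_eq_norm]
  rw [this]
  exact isClosed_biUnion_finset (fun Q _ => isClosed_closedBall)

theorem norm_node_bounds (D : Seed) (m : ℕ) (Q : E) (hQ : Q ∈ (st D m).F) : 1 ≤ ‖Q‖ ∧ ‖Q‖ ≤ 1 + (st D m).s := by
  have h1 := (inv_st D m).norm Q hQ
  have h2 := s_pos D m
  have h3 := norm_nonneg Q
  constructor
  · by_contra h
    push Not at h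
    nlinarith
  · by_contra h
    push Not at h
    nlinarith

theorem KK_sphere (D : Seed) : KK D ⊆ sphere (0:E) 1 := by
  intro x hx
  rw [mem_sphere_zero_iff_norm]
  have h1 : ∀ m, |‖x‖ - 1| ≤ 4 * (st D m).s := by
    intro m
    obtain ⟨Q, hQ, hd⟩ := hx m
    have h2 := norm_node_bounds D m Q hQ
    have h3 := abs_norm_sub_norm_le x Q
    have h4 := s_pos D m
    have h5 := abs_le.mp (h3.trans hd)
    rw [abs_le]
    constructor <;> linarith [h5.1, h5.2]
  have h2 : Tendsto (fun m => 4 * (st D m).s) atTop (𝓝 (4 * 0)) := (s_tendsto D).const_mul 4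
  rw [mul_zero] at h2
  have h3 : |‖x‖ - 1| ≤ 0 := ge_of_tendsto' h2 h1
  have h4 := abs_nonpos_iff.mp h3
  linarith

noncomputable def PP (D : Seed) (m : ℕ) (z : E) : ℂ := Psi (nn D m) (RK D m) (st D m).s (st D m).F z

noncomputable def AA (D : Seed) (M k : ℕ) (z : E) : ℂ := ∏ i ∈ range k, PP D (M+i) z

theorem AA_succ (D : Seed) (M k : ℕ) (z : E) : AA D M (k+1) z = AA D M k z * PP D (M+k) z := by
  rw [AA, Finset.prod_range_succ]; rfl

theorem h_succ (D : Seed) (m : ℕ) (z : E) : (st D (m+1)).h z = ‖PP D m z‖ * max ((st D m).h z) 1 := rfl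

theorem AA_le (D : Seed) (M k : ℕ) (z : E) : ‖AA D M (k+1) z‖ ≤ (st D (M+(k+1))).h z := by
  have hh := h_succ D
  induction k with
  | zero =>
    rw [AA_succ]
    have h1 : (st D (M+(0+1))).h z = ‖PP D M z‖ * max ((st D M).h z) 1 := hh M z
    rw [h1]
    simp only [AA, Finset.range_zero, Finset.prod_empty, one_mul, add_zero]
    exact le_mul_of_one_le_right (norm_nonneg _) (le_max_right _ _)
  | succ k ih =>
    have h1 : (st D (M+(k+1+1))).h z = ‖PP D (M+(k+1)) z‖ * max ((st D (M+(k+1))).h z) 1 := hh (M+(k+1)) z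
    rw [AA_succ, norm_mul, mul_comm, h1]
    exact mul_le_mul_of_nonneg_left (ih.trans (le_max_left _ _)) (norm_nonneg _)

theorem good_small (D : Seed) (m : ℕ) (z : E) (hz : z ∈ closedBall (0:E) 1) :
    (st D m).h z * ‖PP D m z - 1‖ ≤ (1/2) ^ (D.m0 + m) := (good_nn D m).2.2.1 z hz

theorem AA_diff (D : Seed) (M k : ℕ) (z : E) (hz : z ∈ closedBall (0:E) 1) :
    ‖AA D M (k+2) z - AA D M (k+1) z‖ ≤ (1/2) ^ k := by
  have h1 : AA D M (k+2) z - AA D M (k+1) z = AA D M (k+1) z * (PP D (M+(k+1)) z - 1) := by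
    rw [show k + 2 = (k+1) + 1 by ring, AA_succ]; ring
  rw [h1, norm_mul]
  calc ‖AA D M (k+1) z‖ * ‖PP D (M+(k+1)) z - 1‖ ≤ (st D (M+(k+1))).h z * ‖PP D (M+(k+1)) z - 1‖ :=
        mul_le_mul_of_nonneg_right (AA_le D M k z) (norm_nonneg _)
    _ ≤ (1/2) ^ (D.m0 + (M+(k+1))) := good_small D (M+(k+1)) z hz
    _ ≤ (1/2) ^ k := pow_le_pow_of_le_one (by norm_num) (by norm_num) (by omega)

theorem PP_contOn (D : Seed) (m : ℕ) : ContinuousOn (PP D m) (closedBall 0 1) :=
  Psi_contOn _ _ _ (s_pos D m) _ (inv_st D m).norm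

theorem PP_diffOn (D : Seed) (m : ℕ) : DifferentiableOn ℂ (PP D m) (closedBall 0 1) :=
  Psi_diffOn _ _ _ (s_pos D m) _ (inv_st D m).norm

theorem AA_contOn (D : Seed) (M k : ℕ) : ContinuousOn (AA D M k) (closedBall 0 1) := by
  unfold AA
  apply continuousOn_finsetProd
  intro i _
  exact PP_contOn _ _

theorem AA_diffOn (D : Seed) (M k : ℕ) : DifferentiableOn ℂ (AA D M k) (closedBall 0 1) := by
  induction k with
  | zero => unfold AA; simp only [Finset.range_zero, Finset.prod_empty]; exact differentiableOn_const _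
  | succ k ih =>
    have : AA D M (k+1) = fun z => AA D M k z * PP D (M+k) z := by funext z; exact AA_succ D M k z
    rw [this]
    exact ih.fun_mul (PP_diffOn _ _)

/-- limit function -/
noncomputable def GG (D : Seed) (M : ℕ) (z : E) : ℂ := AA D M 1 z + ∑' k : ℕ, (AA D M (k+2) z - AA D M (k+1) z)

theorem GG_contOn (D : Seed) (M : ℕ) : ContinuousOn (GG D M) (closedBall 0 1) := by
  unfold GG
  apply (AA_contOn D M 1).add
  exact continuousOn_tsum (fun k => (AA_contOn D M (k+2)).sub (AA_contOn D M (k+1))) half_summable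
    (fun k z hz => AA_diff D M k z hz)

theorem GG_tendsto (D : Seed) (M : ℕ) (z : E) (hz : z ∈ closedBall (0:E) 1) :
    Tendsto (fun k => AA D M (k+1) z) atTop (𝓝 (GG D M z)) := by
  have hs : Summable (fun k : ℕ => (AA D M (k+2) z - AA D M (k+1) z)) :=
    Summable.of_norm_bounded half_summable (fun k => AA_diff D M k z hz)
  have h1 := hs.hasSum.tendsto_sum_nat
  have h2 := h1.const_add (AA D M 1 z)
  refine h2.congr (fun k => ?_)
  have := Finset.sum_range_sub (fun k => AA D M (k+1) z) k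
  rw [this]; ring

/-- Locally uniform sums of functions on the ball with summable sup norms are holomorphic. -/
theorem tsum_diffOn (u : ℕ → E → ℂ) (hd : ∀ k, DifferentiableOn ℂ (u k) (ball 0 1)) (b : ℕ → ℝ) (hb : Summable b)
    (hub : ∀ k, ∀ z ∈ ball (0:E) 1, ‖u k z‖ ≤ b k) : DifferentiableOn ℂ (fun z => ∑' k, u k z) (ball 0 1) := by
  intro x hx
  rw [mem_ball_zero_iff] at hx
  set ρ : ℝ := (1 + ‖x‖) / 2 with hρ
  have hρ1 : ρ < 1 := by rw [hρ]; linarith
  have hxρ : ‖x‖ < ρ := by rw [hρ]; linarith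
  have hρ0 : 0 < ρ := (norm_nonneg x).trans_lt hxρ
  have hsub : ball (0:E) ρ ⊆ ball 0 1 := ball_subset_ball hρ1.le
  have hb0 : ∀ k, 0 ≤ b k := fun k => (norm_nonneg _).trans (hub k 0 (by simp))
  have hsum : Summable (fun k : ℕ => b k / (1 - ρ)) := hb.div_const _
  have hx0 : (0:E) ∈ ball (0:E) ρ := mem_ball_self hρ0
  have key := hasFDerivAt_tsum_of_isPreconnected (𝕜 := ℂ) (f := u)
    (f' := fun k z => fderiv ℂ (u k) z) hsum (isOpen_ball (x := (0:E)) (ε := ρ))
    (convex_ball (0:E) ρ).isPreconnected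
    (fun k y hy => ((hd k).differentiableAt (isOpen_ball.mem_nhds (hsub hy))).hasFDerivAt)
    (fun k y hy => cauchy_fderiv _ (hd k) _ (hb0 k) (fun z hz => hub k z hz) ρ hρ1 y
      (by simpa using hy)) hx0
    (Summable.of_norm_bounded hb (fun k => hub k 0 (by simp)))
    (show x ∈ ball (0:E) ρ by simpa using hxρ)
  exact key.differentiableAt.differentiableWithinAt

theorem GG_diffOn (D : Seed) (M : ℕ) : DifferentiableOn ℂ (GG D M) (ball 0 1) := by
  have h1 := tsum_diffOn (fun k z => AA D M (k+2) z - AA D M (k+1) z)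
    (fun k => ((AA_diffOn D M (k+2)).sub (AA_diffOn D M (k+1))).mono ball_subset_closedBall) _ half_summable
    (fun k z hz => AA_diff D M k z (ball_subset_closedBall hz))
  exact ((AA_diffOn D M 1).mono ball_subset_closedBall).add h1

theorem GG_zero (D : Seed) (M : ℕ) (x : E) (hx : x ∈ KK D) : GG D M x = 0 := by
  have hxs : x ∈ closedBall (0:E) 1 := sphere_subset_closedBall (KK_sphere D hx)
  choose Q hQ hd using hx
  set zc : ℕ → E := fun j => node (st D (M+j+1)).s (Q (M+j+1)) 0 with hzc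
  have hn : ∀ j, ‖Q (M+j+1)‖ ^ 2 = 1 + (st D (M+j+1)).s ^ 2 := fun j => (inv_st D _).norm _ (hQ _)
  have hzlt : ∀ j, ‖zc j‖ < 1 := fun j => norm_node_lt _ (s_pos D _) _ (hn j) 0 (by simp)
  have hin : ∀ j, inner ℂ (Q (M+j+1)) (zc j) = 1 := fun j => inner_P_node _ _ (hn j) 0
  have hP : ∀ j, PP D (M+j) (zc j) = 0 := by
    intro j
    exact Psi_zero (nn D (M+j)) (good_nn D _).1 _ _ (s_pos D _) _ (inv_st D _).norm (Q (M+j+1)) (hQ (M+j+1)) (zc j) (hzlt j).le (hin j)
  have hA : ∀ j k, j + 1 ≤ k → AA D M k (zc j) = 0 := by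
    intro j k hk
    rw [AA]
    exact Finset.prod_eq_zero (Finset.mem_range.mpr (by omega : j < k)) (hP j)
  have hG : ∀ j, GG D M (zc j) = 0 := by
    intro j
    have h1 := GG_tendsto D M (zc j) (by simpa using (hzlt j).le)
    have h2 : Tendsto (fun k => AA D M (k+1) (zc j)) atTop (𝓝 0) := by
      apply tendsto_const_nhds.congr'
      filter_upwards [eventually_ge_atTop j] with k hk
      rw [hA j (k+1) (by omega)]
    exact tendsto_nhds_unique h1 h2
  have hlim : Tendsto zc atTop (𝓝 x) := by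
    rw [tendsto_iff_norm_sub_tendsto_zero]
    have h1 : ∀ j, ‖zc j - x‖ ≤ 4 * (st D (M+j+1)).s := by
      intro j
      have h2 : ‖zc j - Q (M+j+1)‖ ≤ (st D (M+j+1)).s := by
        apply le_of_sq_le_sq _ (s_pos D _).le
        rw [dist_line _ _ (hn j) _ (hin j)]
        nlinarith [hzlt j, norm_nonneg (zc j)]
      have h3 := hd (M+j+1)
      rw [← norm_neg, neg_sub] at h3
      calc ‖zc j - x‖ = ‖(zc j - Q (M+j+1)) + (Q (M+j+1) - x)‖ := by congr 1; abel
        _ ≤ ‖zc j - Q (M+j+1)‖ + ‖Q (M+j+1) - x‖ := norm_add_le _ _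
        _ ≤ _ := by linarith
    have h4 : Tendsto (fun j => 4 * (st D (M+j+1)).s) atTop (𝓝 (4 * 0)) := by
      apply Tendsto.const_mul
      apply (s_tendsto D).comp
      apply tendsto_atTop_atTop.mpr
      intro b
      exact ⟨b, fun a ha => by omega⟩
    rw [mul_zero] at h4
    exact squeeze_zero (fun j => norm_nonneg _) h1 h4
  have h1 : Tendsto (fun j => GG D M (zc j)) atTop (𝓝 (GG D M x)) := by
    have h2 : Tendsto zc atTop (𝓝[closedBall (0:E) 1] x) := by
      rw [tendsto_nhdsWithin_iff]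
      exact ⟨hlim, Filter.Eventually.of_forall (fun j => by simpa using (hzlt j).le)⟩
    exact (GG_contOn D M x hxs).tendsto.comp h2
  simp only [hG] at h1
  exact tendsto_nhds_unique h1 tendsto_const_nhds |>.symm ▸ rfl

theorem GG_ne (D : Seed) (z : E) (hz : z ∈ closedBall (0:E) 1) (hzK : z ∉ KK D) : ∃ M, GG D M z ≠ 0 := by
  have h0 : ∃ m0, ∀ Q ∈ (st D m0).F, 3 * (st D m0).s < ‖z - Q‖ := by
    by_contra h
    push Not at h
    exact hzK h
  obtain ⟨m0, hm0⟩ := h0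
  obtain ⟨Q0, hQ0, hmin⟩ := (st D m0).F.exists_min_image (fun Q => ‖z - Q‖) (inv_st D m0).ne
  set τ : ℝ := ‖z - Q0‖ - 3 * (st D m0).s with hτ
  have hτpos : 0 < τ := by have := hm0 Q0 hQ0; rw [hτ]; linarith
  have hfar : ∀ k, ∀ P ∈ (st D (m0+k)).F, τ ≤ ‖z - P‖ := by
    intro k P hP
    obtain ⟨Q, hQ, hd⟩ := ancestor D m0 k P hP
    have h1 := hmin Q hQ
    have h2 := s_pos D (m0+k)
    have h3 : ‖z - Q‖ ≤ ‖z - P‖ + ‖P - Q‖ := by
      calc ‖z - Q‖ = ‖(z - P) + (P - Q)‖ := by congr 1; abel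
        _ ≤ _ := norm_add_le _ _
    linarith
  have hz1 : ‖z‖ ≤ 1 := by simpa using hz
  have hev : ∀ᶠ m in atTop, ‖PP D m z - 1‖ ≤ (1/2) ^ (m+2) := by
    have e1 : ∀ᶠ m in atTop, (st D m).s ≤ τ / 2 := (s_tendsto D).eventually_le_const (by linarith)
    have e2 : ∀ᶠ m : ℕ in atTop, (1/2 : ℝ) ^ (m+1) ≤ τ ^ 2 / 16 := by
      have h1 : Tendsto (fun m : ℕ => (1/2 : ℝ) ^ (m+1)) atTop (𝓝 0) :=
        (tendsto_pow_atTop_nhds_zero_of_lt_one (by norm_num) (by norm_num)).comp (tendsto_add_atTop_nat 1)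
      exact h1.eventually_le_const (by positivity)
    filter_upwards [e1, e2, eventually_ge_atTop m0] with m h1 h2 h3
    have h10 : (1/2 : ℝ) ^ (D.m0 + m + 2) ≤ (1/2) ^ (m+2) :=
      pow_le_pow_of_le_one (by norm_num) (by norm_num) (by omega)
    refine le_trans ((good_nn D m).2.2.2 z hz ?_) h10
    intro P hP
    obtain ⟨k, rfl⟩ := Nat.exists_eq_add_of_le h3
    have h4 := hfar k P hP
    have h5 := dist_node_le _ (s_pos D (m0+k)) P ((inv_st D (m0+k)).norm P hP) z hz1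
    have h6 := xf_le_one _ (s_pos D (m0+k)) P ((inv_st D (m0+k)).norm P hP) z hz1
    have h7 : τ / 4 ≤ √(1 - ‖xf (st D (m0+k)).s P z‖) := by linarith
    have h8 : (τ / 4) ^ 2 ≤ 1 - ‖xf (st D (m0+k)).s P z‖ := by
      rw [← Real.sq_sqrt (show 0 ≤ 1 - ‖xf (st D (m0+k)).s P z‖ by linarith)]
      exact pow_le_pow_left₀ (by positivity) h7 2
    have h11 : (1/2 : ℝ) ^ (D.m0 + (m0+k) + 1) ≤ (1/2) ^ (m0+k+1) :=
      pow_le_pow_of_le_one (by norm_num) (by norm_num) (by omega)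
    nlinarith
  obtain ⟨M, hM⟩ := eventually_atTop.mp hev
  refine ⟨M, ?_⟩
  have hlow : ∀ k, 1/2 + (1/2 : ℝ) ^ (k+1) ≤ ‖AA D M k z‖ := by
    intro k
    induction k with
    | zero => simp only [AA, Finset.range_zero, Finset.prod_empty, norm_one]; norm_num
    | succ k ih =>
      rw [AA_succ, norm_mul]
      have h1 := hM (M+k) (by omega)
      have h2 : 1 - (1/2 : ℝ) ^ (M+k+2) ≤ ‖PP D (M+k) z‖ := by
        have := norm_sub_norm_le (1:ℂ) (1 - PP D (M+k) z)
        rw [sub_sub_cancel, norm_one, ← norm_neg (1 - PP D (M+k) z), neg_sub] at this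
        linarith
      have h3 : (1/2 : ℝ) ^ (M+k+2) ≤ (1/2) ^ (k+2) := pow_le_pow_of_le_one (by norm_num) (by norm_num) (by omega)
      have h4 : (1/2 : ℝ) ^ (k+1) = 2 * (1/2) ^ (k+2) := by ring
      have h5 : (1/2 : ℝ) ^ (k+1+1) = (1/2) ^ (k+2) := by ring
      have h6 : 0 < (1/2 : ℝ) ^ (k+2) := by positivity
      have h7 : (1/2 : ℝ) ^ (k+2) ≤ 1/4 := by
        calc (1/2 : ℝ) ^ (k+2) ≤ (1/2) ^ 2 := pow_le_pow_of_le_one (by norm_num) (by norm_num) (by omega)
          _ = 1/4 := by norm_num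
      set y := (1/2 : ℝ) ^ (k+2) with hy
      rw [h5]
      rw [h4] at ih
      have h8 : 1 - y ≤ ‖PP D (M+k) z‖ := by linarith
      calc 1/2 + y ≤ (1/2 + 2 * y) * (1 - y) := by nlinarith
        _ ≤ ‖AA D M k z‖ * ‖PP D (M+k) z‖ := mul_le_mul ih h8 (by linarith) (norm_nonneg _)
  have h1 := (GG_tendsto D M z hz).norm
  have h2 : 1/2 ≤ ‖GG D M z‖ := by
    apply ge_of_tendsto' h1
    intro k
    have := hlow (k+1)
    have h6 : 0 < (1/2 : ℝ) ^ (k+1+1) := by positivity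
    linarith
  intro h
  rw [h, norm_zero] at h2
  norm_num at h2

/-- The starting weight controls the deviation of the full product from `1`. -/
theorem h0_AA (D : Seed) (k : ℕ) (z : E) : (st D 0).h z * ‖AA D 0 k z‖ ≤ (st D k).h z := by
  induction k with
  | zero => simp [AA]
  | succ k ih =>
    rw [h_succ, AA_succ, norm_mul, zero_add]
    calc (st D 0).h z * (‖AA D 0 k z‖ * ‖PP D k z‖) = ‖PP D k z‖ * ((st D 0).h z * ‖AA D 0 k z‖) := by ring
      _ ≤ ‖PP D k z‖ * max ((st D k).h z) 1 :=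
        mul_le_mul_of_nonneg_left (ih.trans (le_max_left _ _)) (norm_nonneg _)

theorem h0_AA_sub (D : Seed) (k : ℕ) (z : E) (hz : z ∈ closedBall (0:E) 1) :
    (st D 0).h z * ‖AA D 0 k z - 1‖ ≤ (1/2) ^ D.m0 * (2 - 2 * (1/2) ^ k) := by
  induction k with
  | zero => simp [AA]
  | succ k ih =>
    have h0 := (inv_st D 0).nonneg z
    have h1 : AA D 0 (k+1) z - 1 = (AA D 0 k z - 1) + AA D 0 k z * (PP D k z - 1) := by
      rw [AA_succ, zero_add]; ring
    have h2 : (st D 0).h z * ‖AA D 0 k z * (PP D k z - 1)‖ ≤ (1/2) ^ (D.m0 + k) := by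
      rw [norm_mul, ← mul_assoc]
      exact (mul_le_mul_of_nonneg_right (h0_AA D k z) (norm_nonneg _)).trans (good_small D k z hz)
    calc (st D 0).h z * ‖AA D 0 (k+1) z - 1‖
        ≤ (st D 0).h z * (‖AA D 0 k z - 1‖ + ‖AA D 0 k z * (PP D k z - 1)‖) := by
          rw [h1]; exact mul_le_mul_of_nonneg_left (norm_add_le _ _) h0
      _ ≤ (1/2) ^ D.m0 * (2 - 2 * (1/2) ^ k) + (1/2) ^ (D.m0 + k) := by
          rw [mul_add]; linarith
      _ = (1/2) ^ D.m0 * (2 - 2 * (1/2) ^ (k+1)) := by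
          rw [pow_add, pow_succ]; ring

theorem h0_GG_sub (D : Seed) (z : E) (hz : z ∈ closedBall (0:E) 1) :
    (st D 0).h z * ‖GG D 0 z - 1‖ ≤ 2 * (1/2) ^ D.m0 := by
  have h1 := GG_tendsto D 0 z hz
  have h2 : Tendsto (fun k => (st D 0).h z * ‖AA D 0 (k+1) z - 1‖) atTop (𝓝 ((st D 0).h z * ‖GG D 0 z - 1‖)) :=
    ((h1.sub_const 1).norm).const_mul _
  apply le_of_tendsto' h2
  intro k
  refine (h0_AA_sub D (k+1) z hz).trans ?_
  have h3 : 0 < (1/2 : ℝ) ^ D.m0 := by positivity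
  have h4 : 0 < (1/2 : ℝ) ^ (k+1) := by positivity
  nlinarith

end Pool.Agent.H822B
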